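import Mathlib

/-!
# The rational vector space of nonzero complex numbers modulo algebraic numbers

`V` is the quotient of the additive group of complex numbers by the rational subspace of all `z`
with `exp z` algebraic; `cls x` is the class of `log x`.  The map `cls` is multiplicative on
nonzero complex numbers and its kernel is the set of nonzero algebraic numbers.
-/

set_option autoImplicit false

open Finset

noncomputable section

namespace Pool.Agent.H11.GD

/-- the rational subspace of logarithms of algebraic numbers -/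
def LogAlg : Submodule ℚ ℂ where
  carrier := {z | IsAlgebraic ℚ (Complex.exp z)}
  zero_mem' := by
    change IsAlgebraic ℚ (Complex.exp 0)
    rw [Complex.exp_zero]
    exact isAlgebraic_one
  add_mem' := by
    intro a b ha hb
    change IsAlgebraic ℚ (Complex.exp (a + b))
    rw [Complex.exp_add]
    exact IsAlgebraic.mul ha hb
  smul_mem' := by
    intro c z hz
    change IsAlgebraic ℚ (Complex.exp (c • z))
    have hz' : IsAlgebraic ℚ (Complex.exp z) := hz
    have h : Complex.exp (c • z) ^ c.den = Complex.exp z ^ c.num := by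
      rw [← Complex.exp_nat_mul, ← Complex.exp_int_mul]
      congr 1
      have h1 : (c : ℂ) = (c.num : ℂ) / (c.den : ℂ) := by
        exact_mod_cast (Rat.num_div_den c).symm
      have h2 : (c.den : ℂ) ≠ 0 := by exact_mod_cast c.den_nz
      rw [Rat.smul_def, h1]
      field_simp
    have h3 : IsAlgebraic ℚ (Complex.exp z ^ c.num) := by
      rcases Int.eq_nat_or_neg c.num with ⟨n, hn | hn⟩
      · rw [hn, zpow_natCast]
        exact hz'.pow n
      · rw [hn, zpow_neg, zpow_natCast]
        exact (hz'.pow n).inv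
    rw [← h] at h3
    exact IsAlgebraic.of_pow c.pos h3

/-- nonzero complex numbers modulo nonzero algebraic numbers, as a rational vector space -/
abbrev V : Type := ℂ ⧸ LogAlg

/-- the class of a nonzero complex number -/
def cls (x : ℂ) : V := Submodule.Quotient.mk (Complex.log x)

theorem mem_LogAlg {z : ℂ} : z ∈ LogAlg ↔ IsAlgebraic ℚ (Complex.exp z) := Iff.rfl

theorem mk_eq_cls_exp (z : ℂ) : (Submodule.Quotient.mk z : V) = cls (Complex.exp z) := by
  unfold cls
  rw [Submodule.Quotient.eq, mem_LogAlg, Complex.exp_sub, Complex.exp_log (Complex.exp_ne_zero z),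
    div_self (Complex.exp_ne_zero z)]
  exact isAlgebraic_one

theorem cls_eq_zero_iff {x : ℂ} (hx : x ≠ 0) : cls x = 0 ↔ IsAlgebraic ℚ x := by
  unfold cls
  rw [Submodule.Quotient.mk_eq_zero, mem_LogAlg, Complex.exp_log hx]

theorem cls_mul {x y : ℂ} (hx : x ≠ 0) (hy : y ≠ 0) : cls (x * y) = cls x + cls y := by
  unfold cls
  rw [← Submodule.Quotient.mk_add, Submodule.Quotient.eq, mem_LogAlg, Complex.exp_sub,
    Complex.exp_add, Complex.exp_log (mul_ne_zero hx hy), Complex.exp_log hx, Complex.exp_log hy,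
    div_self (mul_ne_zero hx hy)]
  exact isAlgebraic_one

@[simp] theorem cls_one : cls 1 = 0 := (cls_eq_zero_iff one_ne_zero).2 isAlgebraic_one

theorem cls_inv {x : ℂ} (hx : x ≠ 0) : cls x⁻¹ = -cls x := by
  have h := cls_mul hx (inv_ne_zero hx)
  rw [mul_inv_cancel₀ hx, cls_one] at h
  exact (neg_eq_of_add_eq_zero_right h.symm).symm

theorem cls_div {x y : ℂ} (hx : x ≠ 0) (hy : y ≠ 0) : cls (x / y) = cls x - cls y := by
  rw [div_eq_mul_inv, cls_mul hx (inv_ne_zero hy), cls_inv hy, sub_eq_add_neg]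

theorem cls_pow {x : ℂ} (hx : x ≠ 0) (n : ℕ) : cls (x ^ n) = (n : ℚ) • cls x := by
  induction n with
  | zero => simp
  | succ n ih =>
    rw [pow_succ, cls_mul (pow_ne_zero n hx) hx, ih]
    push_cast
    rw [add_smul, one_smul]

theorem cls_zpow {x : ℂ} (hx : x ≠ 0) (n : ℤ) : cls (x ^ n) = (n : ℚ) • cls x := by
  rcases Int.eq_nat_or_neg n with ⟨k, hk | hk⟩
  · rw [hk, zpow_natCast, cls_pow hx]
    simp
  · rw [hk, zpow_neg, zpow_natCast, cls_inv (pow_ne_zero k hx), cls_pow hx]
    simp

theorem cls_prod {ι : Type*} (s : Finset ι) (f : ι → ℂ) (hf : ∀ i ∈ s, f i ≠ 0) :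
    cls (∏ i ∈ s, f i) = ∑ i ∈ s, cls (f i) := by
  classical
  induction s using Finset.induction_on with
  | empty => simp
  | insert a s ha ih =>
    rw [prod_insert ha, sum_insert ha, cls_mul (hf a (mem_insert_self a s)), ih]
    · exact fun i hi => hf i (mem_insert_of_mem hi)
    · exact prod_ne_zero_iff.2 fun i hi => hf i (mem_insert_of_mem hi)

theorem cls_eq_iff {x y : ℂ} (hx : x ≠ 0) (hy : y ≠ 0) : cls x = cls y ↔ IsAlgebraic ℚ (x / y) := by
  rw [← cls_eq_zero_iff (div_ne_zero hx hy), cls_div hx hy, sub_eq_zero]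

/-- real powers with rational exponent -/
theorem cls_rpow {x : ℝ} (hx : 0 < x) (q : ℚ) :
    cls ((x ^ (q : ℝ) : ℝ) : ℂ) = q • cls (x : ℂ) := by
  have h1 : ((x ^ (q : ℝ) : ℝ) : ℂ) = Complex.exp (q • Complex.log (x : ℂ)) := by
    rw [Rat.smul_def, ← Complex.ofReal_log hx.le, Real.rpow_def_of_pos hx]
    push_cast
    rw [mul_comm]
  rw [h1, ← mk_eq_cls_exp, Submodule.Quotient.mk_smul]
  rfl

/-- complex powers with rational exponent -/
theorem cls_cpow {x : ℂ} (hx : x ≠ 0) (q : ℚ) : cls (x ^ (q : ℂ)) = q • cls x := by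
  have h1 : x ^ (q : ℂ) = Complex.exp (q • Complex.log x) := by
    rw [Rat.smul_def, Complex.cpow_def_of_ne_zero hx, mul_comm]
  rw [h1, ← mk_eq_cls_exp, Submodule.Quotient.mk_smul]
  rfl

theorem cls_natCast {n : ℕ} (hn : n ≠ 0) : cls (n : ℂ) = 0 :=
  (cls_eq_zero_iff (by exact_mod_cast hn)).2 (isAlgebraic_natCast n)

theorem isAlgebraic_I : IsAlgebraic ℚ Complex.I := by
  have h : IsAlgebraic ℚ (Complex.I ^ 2) := by
    rw [Complex.I_sq]
    exact (isAlgebraic_one (R := ℚ)).neg
  exact IsAlgebraic.of_pow two_pos h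

/-- `cls (2 π i) = cls π` -/
theorem cls_two_pi_I : cls (2 * Real.pi * Complex.I) = cls (Real.pi : ℂ) := by
  have hpi : (Real.pi : ℂ) ≠ 0 := by exact_mod_cast Real.pi_ne_zero
  rw [cls_mul (mul_ne_zero two_ne_zero hpi) Complex.I_ne_zero, cls_mul two_ne_zero hpi,
    (cls_eq_zero_iff Complex.I_ne_zero).2 isAlgebraic_I,
    (cls_eq_zero_iff two_ne_zero).2 (isAlgebraic_natCast (R := ℚ) (A := ℂ) 2)]
  simp

end Pool.Agent.H11.GD
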