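import Pool.Agent.H11.GD.Mult

/-!
# Odd distributions on the rational numbers modulo integers
-/

set_option autoImplicit false

open Finset

noncomputable section

namespace Pool.Agent.H11.GD

/-- odd distributions of weight zero on `ℚ / ℤ` -/
structure OddDist {W : Type*} [AddCommGroup W] (g : ℚ → W) : Prop where
  per : ∀ y, g (y + 1) = g y
  odd : ∀ y, g (-y) = -g y
  dist : ∀ M : ℕ, 0 < M → ∀ x, ∑ k ∈ range M, g ((x + k) / M) = g x

section
variable {W : Type*} {g : ℚ → W}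

theorem per_nat (hper : ∀ y, g (y + 1) = g y) (y : ℚ) (n : ℕ) : g (y + n) = g y := by
  induction n with
  | zero => simp
  | succ n ih =>
    rw [← ih, ← hper (y + n)]
    congr 1
    push_cast
    ring

theorem per_int (hper : ∀ y, g (y + 1) = g y) (y : ℚ) (n : ℤ) : g (y + n) = g y := by
  rcases Int.eq_nat_or_neg n with ⟨k, hk | hk⟩
  · rw [hk]
    exact_mod_cast per_nat hper y k
  · rw [hk, ← per_nat hper (y + ((-(k : ℤ) : ℤ) : ℚ)) k]
    congr 1
    push_cast
    ring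

theorem per_fract (hper : ∀ y, g (y + 1) = g y) (y : ℚ) : g (Int.fract y) = g y := by
  have h := per_int hper (Int.fract y) ⌊y⌋
  rw [Int.fract_add_floor] at h
  exact h.symm

/-- it is enough to check the distribution relation on the unit interval -/
theorem dist_of_fract [AddCommGroup W] (hper : ∀ y, g (y + 1) = g y) {M : ℕ} (hM : 0 < M)
    (h : ∀ x, 0 ≤ x → x < 1 → ∑ k ∈ range M, g ((x + k) / M) = g x) (x : ℚ) :
    ∑ k ∈ range M, g ((x + k) / M) = g x := by
  have hM' : (M : ℚ) ≠ 0 := by exact_mod_cast hM.ne'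
  -- the sum is periodic
  have hs : ∀ y : ℚ, ∑ k ∈ range M, g ((y + 1 + k) / M) = ∑ k ∈ range M, g ((y + k) / M) := by
    intro y
    have h1 : ∑ k ∈ range M, g ((y + 1 + k) / M) = ∑ k ∈ range M, g ((y + ((k + 1 : ℕ) : ℚ)) / M) := by
      refine sum_congr rfl fun k _ => ?_
      congr 2
      push_cast
      ring
    have h2 := sum_range_succ (fun k : ℕ => g ((y + (k : ℚ)) / M)) M
    have h3 := sum_range_succ' (fun k : ℕ => g ((y + (k : ℚ)) / M)) M
    have h4 : g ((y + (M : ℚ)) / M) = g ((y + ((0 : ℕ) : ℚ)) / M) := by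
      rw [← hper ((y + ((0 : ℕ) : ℚ)) / M)]
      congr 1
      field_simp
      simp
    rw [h1]
    rw [h2, h4] at h3
    exact (add_right_cancel h3).symm
  have hper2 := per_fract (g := fun y => ∑ k ∈ range M, g ((y + k) / M)) hs x
  rw [← hper2, h _ (Int.fract_nonneg x) (Int.fract_lt_one x), per_fract hper]

namespace OddDist
variable [AddCommGroup W] (hg : OddDist g)
include hg

theorem nat (y : ℚ) (n : ℕ) : g (y + n) = g y := per_nat hg.per y n

theorem int (y : ℚ) (n : ℤ) : g (y + n) = g y := per_int hg.per y n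

theorem fract (y : ℚ) : g (Int.fract y) = g y := per_fract hg.per y

/-- congruent numerators give the same value -/
theorem congr_mod {D m n : ℕ} (hD : 0 < D) (h : m ≡ n [MOD D]) :
    g ((m : ℚ) / D) = g ((n : ℚ) / D) := by
  have hD' : (D : ℚ) ≠ 0 := by exact_mod_cast hD.ne'
  have key : ∀ m : ℕ, g ((m : ℚ) / D) = g (((m % D : ℕ) : ℚ) / D) := by
    intro m
    rw [← hg.nat (((m % D : ℕ) : ℚ) / D) (m / D)]
    congr 1
    have h1 : (m : ℚ) = ((m % D : ℕ) : ℚ) + D * ((m / D : ℕ) : ℚ) := by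
      exact_mod_cast (Nat.mod_add_div m D).symm
    conv_lhs => rw [h1]
    field_simp
  rw [key m, key n, h]

end OddDist
end

/-- the first Bernoulli distribution -/
def gB (y : ℚ) : ℚ := if Int.fract y = 0 then 0 else Int.fract y - 1 / 2

/-- the Gamma distribution -/
def gG (y : ℚ) : V :=
  if Int.fract y = 0 then 0 else
    clG (1 - ((Int.fract y : ℚ) : ℝ)) - (1 / 2 : ℚ) • cls (Real.pi : ℂ)

theorem gB_per (y : ℚ) : gB (y + 1) = gB y := by unfold gB; rw [Int.fract_add_one]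
theorem gG_per (y : ℚ) : gG (y + 1) = gG y := by unfold gG; rw [Int.fract_add_one]

theorem fract_neg' {y : ℚ} (hy : Int.fract y ≠ 0) : Int.fract (-y) = 1 - Int.fract y :=
  Int.fract_neg hy

theorem gB_odd (y : ℚ) : gB (-y) = -gB y := by
  unfold gB
  by_cases hy : Int.fract y = 0
  · rw [if_pos (Int.fract_neg_eq_zero.2 hy), if_pos hy, neg_zero]
  · rw [if_neg (fun h => hy (Int.fract_neg_eq_zero.1 h)), if_neg hy, fract_neg' hy]
    ring

theorem gG_odd (y : ℚ) : gG (-y) = -gG y := by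
  unfold gG
  by_cases hy : Int.fract y = 0
  · rw [if_pos (Int.fract_neg_eq_zero.2 hy), if_pos hy, neg_zero]
  · rw [if_neg (fun h => hy (Int.fract_neg_eq_zero.1 h)), if_neg hy, fract_neg' hy]
    have h0 : 0 < Int.fract y := lt_of_le_of_ne (Int.fract_nonneg y) (Ne.symm hy)
    have h := clG_reflect h0 (Int.fract_lt_one y)
    have h2 : (1 : ℝ) - ((1 - Int.fract y : ℚ) : ℝ) = ((Int.fract y : ℚ) : ℝ) := by
      push_cast
      ring
    rw [h2]
    have h3 : cls (Real.pi : ℂ) = (1 / 2 : ℚ) • cls (Real.pi : ℂ) + (1 / 2 : ℚ) • cls (Real.pi : ℂ) := by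
      rw [← add_smul]
      norm_num
    rw [h3] at h
    rw [neg_sub, sub_eq_sub_iff_add_eq_add, h]

theorem fract_div {M : ℕ} (hM : 0 < M) {x : ℚ} (h0 : 0 ≤ x) (h1 : x < 1) {k : ℕ} (hk : k < M) :
    Int.fract ((x + k) / M) = (x + k) / M := by
  have hM' : (0 : ℚ) < M := by exact_mod_cast hM
  rw [Int.fract_eq_self]
  refine ⟨by positivity, ?_⟩
  rw [div_lt_one hM']
  have : (k : ℚ) + 1 ≤ M := by exact_mod_cast hk
  linarith

theorem sum_range_half (M : ℕ) : ∑ k ∈ range M, (k : ℚ) = M * (M - 1) / 2 := by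
  induction M with
  | zero => simp
  | succ n ih =>
    rw [sum_range_succ, ih]
    push_cast
    ring

theorem gB_dist {M : ℕ} (hM : 0 < M) (x : ℚ) : ∑ k ∈ range M, gB ((x + k) / M) = gB x := by
  refine dist_of_fract gB_per hM (fun x h0 h1 => ?_) x
  have hM' : (0 : ℚ) < M := by exact_mod_cast hM
  have hall : ∑ k ∈ range M, ((x + k) / M - 1 / 2) = x - 1 / 2 := by
    rw [sum_sub_distrib, ← sum_div, sum_add_distrib, sum_range_half]
    simp only [sum_const, card_range, nsmul_eq_mul]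
    field_simp
    ring
  have hx : Int.fract x = x := Int.fract_eq_self.2 ⟨h0, h1⟩
  by_cases hx0 : x = 0
  · subst hx0
    obtain ⟨n, rfl⟩ : ∃ n, M = n + 1 := ⟨M - 1, by omega⟩
    rw [sum_range_succ'] at hall ⊢
    have h2 : gB ((0 + ((0 : ℕ) : ℚ)) / ((n + 1 : ℕ) : ℚ)) = 0 := by simp [gB]
    have h3 : gB 0 = 0 := by simp [gB]
    rw [h2, h3, add_zero]
    have h4 : ∀ k ∈ range n, gB ((0 + ((k + 1 : ℕ) : ℚ)) / ((n + 1 : ℕ) : ℚ)) =
        (0 + ((k + 1 : ℕ) : ℚ)) / ((n + 1 : ℕ) : ℚ) - 1 / 2 := by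
      intro k hk
      have hk' : k < n := mem_range.1 hk
      unfold gB
      rw [fract_div hM le_rfl one_pos (by omega : k + 1 < n + 1), if_neg]
      rw [zero_add]
      positivity
    rw [sum_congr rfl h4]
    simp only [Nat.cast_zero, add_zero, zero_div, zero_sub] at hall
    linarith
  · have hxpos : 0 < x := lt_of_le_of_ne h0 (Ne.symm hx0)
    have hc : ∀ k ∈ range M, gB ((x + k) / M) = (x + k) / M - 1 / 2 := by
      intro k hk
      have hk' : k < M := mem_range.1 hk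
      unfold gB
      rw [fract_div hM h0 h1 hk', if_neg]
      positivity
    rw [sum_congr rfl hc, hall]
    unfold gB
    rw [hx, if_neg hx0]

theorem gG_dist {M : ℕ} (hM : 0 < M) (x : ℚ) : ∑ k ∈ range M, gG ((x + k) / M) = gG x := by
  refine dist_of_fract gG_per hM (fun x h0 h1 => ?_) x
  have hM' : (0 : ℚ) < M := by exact_mod_cast hM
  have hMR : (0 : ℝ) < M := by exact_mod_cast hM
  have hall : ∑ k ∈ range M, (clG (1 - (((x + k) / M : ℚ) : ℝ)) - (1 / 2 : ℚ) • cls (Real.pi : ℂ))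
      = clG (1 - (x : ℝ)) - (1 / 2 : ℚ) • cls (Real.pi : ℂ) := by
    have h := clG_mult hM (q := 1 - x) (by linarith)
    rw [sum_sub_distrib, ← sum_range_reflect]
    have h2 : ∀ k ∈ range M, clG (1 - (((x + ((M - 1 - k : ℕ) : ℚ)) / M : ℚ) : ℝ)) =
        clG ((((1 - x : ℚ) : ℝ) + k) / M) := by
      intro k hk
      have hk' : k < M := mem_range.1 hk
      congr 1
      have h3 : ((M - 1 - k : ℕ) : ℚ) = M - 1 - k := by
        rw [Nat.cast_sub (by omega), Nat.cast_sub (by omega)]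
        simp
      rw [h3]
      push_cast
      field_simp
      ring
    rw [sum_congr rfl h2, h, sum_const, card_range, ← Nat.cast_smul_eq_nsmul ℚ, smul_smul]
    have h4 : (1 : ℝ) - (x : ℝ) = ((1 - x : ℚ) : ℝ) := by push_cast; ring
    rw [h4]
    have h5 : ((M : ℚ) - 1) / 2 = (M : ℚ) * (1 / 2) - 1 / 2 := by ring
    rw [h5, sub_smul]
    abel
  have hx : Int.fract x = x := Int.fract_eq_self.2 ⟨h0, h1⟩
  by_cases hx0 : x = 0
  · subst hx0
    obtain ⟨n, rfl⟩ : ∃ n, M = n + 1 := ⟨M - 1, by omega⟩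
    rw [sum_range_succ'] at hall ⊢
    have h2 : gG ((0 + ((0 : ℕ) : ℚ)) / ((n + 1 : ℕ) : ℚ)) = 0 := by simp [gG]
    have h3 : gG 0 = 0 := by simp [gG]
    rw [h2, h3, add_zero]
    have h4 : ∀ k ∈ range n, gG ((0 + ((k + 1 : ℕ) : ℚ)) / ((n + 1 : ℕ) : ℚ)) =
        clG (1 - (((0 + ((k + 1 : ℕ) : ℚ)) / ((n + 1 : ℕ) : ℚ) : ℚ) : ℝ)) -
          (1 / 2 : ℚ) • cls (Real.pi : ℂ) := by
      intro k hk
      have hk' : k < n := mem_range.1 hk
      unfold gG
      rw [fract_div hM le_rfl one_pos (by omega : k + 1 < n + 1), if_neg]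
      rw [zero_add]
      positivity
    rw [sum_congr rfl h4]
    have h6 : clG (1 - ((((0 : ℚ) + ((0 : ℕ) : ℚ)) / ((n + 1 : ℕ) : ℚ) : ℚ) : ℝ)) = 0 := by
      simp [clG_one]
    have h7 : clG (1 - ((0 : ℚ) : ℝ)) = 0 := by simp [clG_one]
    rw [h6, h7] at hall
    have h8 := add_right_cancel (hall.trans (zero_add (0 - (1 / 2 : ℚ) • cls (Real.pi : ℂ))).symm)
    exact h8
  · have hxpos : 0 < x := lt_of_le_of_ne h0 (Ne.symm hx0)
    have hc : ∀ k ∈ range M, gG ((x + k) / M) =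
        clG (1 - (((x + k) / M : ℚ) : ℝ)) - (1 / 2 : ℚ) • cls (Real.pi : ℂ) := by
      intro k hk
      have hk' : k < M := mem_range.1 hk
      unfold gG
      rw [fract_div hM h0 h1 hk', if_neg]
      positivity
    rw [sum_congr rfl hc, hall]
    unfold gG
    rw [hx, if_neg hx0]

theorem oddDist_gB : OddDist gB := ⟨gB_per, gB_odd, fun _ hM x => gB_dist hM x⟩
theorem oddDist_gG : OddDist gG := ⟨gG_per, gG_odd, fun _ hM x => gG_dist hM x⟩

end Pool.Agent.H11.GD
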