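import Pool.Agent.H11.GD.KO2

/-!
# Gamma products modulo algebraic numbers
-/

set_option autoImplicit false

open Finset DirichletCharacter

noncomputable section

namespace Pool.Agent.H11.GD

section
variable {d : ℕ} [NeZero d]

/-- the class of `Γ (1 - a / d)`, it is zero for `a = 0` -/
def gval (a : ZMod d) : V := cls (Complex.Gamma (1 - (a.val : ℂ) / d))

/-- the class of the product of all `Γ (1 - a / d) ^ ε (a / l)` -/
def gam (ε : ZMod d → ℚ) (l : (ZMod d)ˣ) : V :=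
  ∑ a : ZMod d, ε (a * ((l⁻¹ : (ZMod d)ˣ) : ZMod d)) • gval a

omit [NeZero d] in
theorem gval_eq (a : ZMod d) : gval a = clG (1 - ((a.val : ℚ) / d : ℚ)) := by
  unfold gval clG
  rw [← Complex.Gamma_ofReal]
  push_cast
  rfl

omit [NeZero d] in
theorem gval_zero : gval (0 : ZMod d) = 0 := by
  rw [gval_eq]
  simp [clG_one]

theorem fract_val (a : ZMod d) : Int.fract ((a.val : ℚ) / d) = (a.val : ℚ) / d := by
  have hd : (0 : ℚ) < d := by exact_mod_cast NeZero.pos d
  rw [Int.fract_eq_self]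
  refine ⟨by positivity, ?_⟩
  rw [div_lt_one hd]
  exact_mod_cast ZMod.val_lt a

theorem gval_eq_gG {a : ZMod d} (ha : a ≠ 0) :
    gval a = gz gG a + (1 / 2 : ℚ) • cls (Real.pi : ℂ) := by
  have hd : (d : ℚ) ≠ 0 := by exact_mod_cast NeZero.ne d
  have h1 : (a.val : ℚ) / d ≠ 0 := by
    have : a.val ≠ 0 := by rwa [Ne, ZMod.val_eq_zero]
    have : (a.val : ℚ) ≠ 0 := by exact_mod_cast this
    exact div_ne_zero this hd
  unfold gz gG
  rw [fract_val, if_neg h1, sub_add_cancel, gval_eq]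

omit [NeZero d] in
theorem gz_gG_zero : gz gG (0 : ZMod d) = 0 := by simp [gz, gG]
omit [NeZero d] in
theorem gz_gB_zero : gz gB (0 : ZMod d) = 0 := by simp [gz, gB]

theorem val_eq_gB {a : ZMod d} (ha : a ≠ 0) : (a.val : ℚ) = d * (gz gB a + 1 / 2) := by
  have hd : (d : ℚ) ≠ 0 := by exact_mod_cast NeZero.ne d
  have h1 : (a.val : ℚ) / d ≠ 0 := by
    have : a.val ≠ 0 := by rwa [Ne, ZMod.val_eq_zero]
    have : (a.val : ℚ) ≠ 0 := by exact_mod_cast this
    exact div_ne_zero this hd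
  unfold gz gB
  rw [fract_val, if_neg h1]
  field_simp
  ring

/-- reindexing by a unit -/
theorem gam_eq (ε : ZMod d → ℚ) (l : (ZMod d)ˣ) :
    gam ε l = ∑ a : ZMod d, ε a • gval ((l : ZMod d) * a) := by
  unfold gam
  rw [← Equiv.sum_comp (Units.mulLeft l)]
  refine sum_congr rfl fun a _ => ?_
  congr 2
  simp only [Units.mulLeft_apply]
  rw [mul_comm, ← mul_assoc, Units.inv_mul, one_mul]

omit [NeZero d] in
theorem unit_mul_ne_zero (l : (ZMod d)ˣ) {a : ZMod d} (ha : a ≠ 0) : (l : ZMod d) * a ≠ 0 := by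
  intro h
  apply ha
  have := congrArg (fun x => ((l⁻¹ : (ZMod d)ˣ) : ZMod d) * x) h
  simpa using this

theorem sum_eq_erase {W : Type*} [AddCommMonoid W] (F : ZMod d → W) (h0 : F 0 = 0) :
    ∑ a : ZMod d, F a = ∑ a ∈ univ.erase (0 : ZMod d), F a := by
  rw [← sum_erase (s := univ) (a := (0 : ZMod d)) (f := F) h0]

theorem gam_eq_gG (ε : ZMod d → ℚ) (l : (ZMod d)ˣ) :
    gam ε l = (∑ a : ZMod d, ε a • gz gG ((l : ZMod d) * a)) +
      ((1 / 2 : ℚ) * ∑ a ∈ univ.erase (0 : ZMod d), ε a) • cls (Real.pi : ℂ) := by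
  rw [gam_eq, sum_eq_erase (fun a => ε a • gval ((l : ZMod d) * a)) (by
      simp only [mul_zero, gval_zero, smul_zero]),
    sum_eq_erase (fun a => ε a • gz gG ((l : ZMod d) * a)) (by
      simp only [mul_zero, gz_gG_zero, smul_zero]), mul_sum, sum_smul, ← sum_add_distrib]
  refine sum_congr rfl fun a ha => ?_
  rw [gval_eq_gG (unit_mul_ne_zero l (ne_of_mem_erase ha)), smul_add, smul_smul, mul_comm (ε a)]

theorem sum_val_eq (ε : ZMod d → ℚ) (l : (ZMod d)ˣ) :
    ∑ a : ZMod d, ε a * (((l : ZMod d) * a).val : ℚ) =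
      d * (∑ a : ZMod d, ε a * gz gB ((l : ZMod d) * a)) +
        d * ((1 / 2 : ℚ) * ∑ a ∈ univ.erase (0 : ZMod d), ε a) := by
  rw [sum_eq_erase (fun a => ε a * (((l : ZMod d) * a).val : ℚ)) (by simp),
    sum_eq_erase (fun a => ε a * gz gB ((l : ZMod d) * a)) (by
      simp only [mul_zero, gz_gB_zero]), ← mul_add,
    mul_sum (univ.erase (0 : ZMod d)) (fun a => ε a) (1 / 2 : ℚ), ← sum_add_distrib, mul_sum]
  refine sum_congr rfl fun a ha => ?_
  rw [val_eq_gB (unit_mul_ne_zero l (ne_of_mem_erase ha))]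
  ring

theorem sum_gB_neg (ε : ZMod d → ℚ) (l : (ZMod d)ˣ) :
    ∑ a : ZMod d, ε a * gz gB (((-l : (ZMod d)ˣ) : ZMod d) * a) =
      -∑ a : ZMod d, ε a * gz gB ((l : ZMod d) * a) := by
  rw [← sum_neg_distrib]
  refine sum_congr rfl fun a _ => ?_
  rw [Units.val_neg, neg_mul, gz_neg oddDist_gB, mul_neg]

theorem sum_gG_neg (ε : ZMod d → ℚ) (l : (ZMod d)ˣ) :
    ∑ a : ZMod d, ε a • gz gG (((-l : (ZMod d)ˣ) : ZMod d) * a) =
      -∑ a : ZMod d, ε a • gz gG ((l : ZMod d) * a) := by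
  rw [← sum_neg_distrib]
  refine sum_congr rfl fun a _ => ?_
  rw [Units.val_neg, neg_mul, gz_neg oddDist_gG, smul_neg]

/-- the total weight is determined by the exponents at `l` and `-l` -/
theorem sum_eps (ε : ZMod d → ℚ) (l : (ZMod d)ˣ) {p q : ℚ}
    (h1 : ∑ a : ZMod d, ε a * (((l : ZMod d) * a).val : ℚ) = d * p)
    (h2 : ∑ a : ZMod d, ε a * ((((-l : (ZMod d)ˣ) : ZMod d) * a).val : ℚ) = d * q) :
    ∑ a ∈ univ.erase (0 : ZMod d), ε a = p + q := by
  have hd : (d : ℚ) ≠ 0 := by exact_mod_cast NeZero.ne d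
  rw [sum_val_eq] at h1 h2
  rw [sum_gB_neg] at h2
  have h3 : (d : ℚ) * ∑ a ∈ univ.erase (0 : ZMod d), ε a = d * (p + q) := by linarith
  exact mul_left_cancel₀ hd h3

/-- the product of the values at `l` and `-l` -/
theorem gam_add_neg (ε : ZMod d → ℚ) (l : (ZMod d)ˣ) :
    gam ε l + gam ε (-l) = (∑ a ∈ univ.erase (0 : ZMod d), ε a) • cls (Real.pi : ℂ) := by
  rw [gam_eq_gG, gam_eq_gG, sum_gG_neg, add_add_add_comm, add_neg_cancel, zero_add, ← add_smul]
  congr 1
  ring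

/-- Koblitz and Ogus: constant exponents give a power of `π` -/
theorem gam_const (ε : ZMod d → ℚ) (r : ℚ)
    (h : ∀ l : (ZMod d)ˣ, ∑ a : ZMod d, ε a * (((l : ZMod d) * a).val : ℚ) = d * r)
    (l : (ZMod d)ˣ) : gam ε l = r • cls (Real.pi : ℂ) := by
  have hd : (d : ℚ) ≠ 0 := by exact_mod_cast NeZero.ne d
  have hs : ∑ a ∈ univ.erase (0 : ZMod d), ε a = r + r := sum_eps ε l (h l) (h (-l))
  have h1 : ∀ l : (ZMod d)ˣ, ∑ a, ε a * gz gB ((l : ZMod d) * a) = 0 := by
    intro l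
    have h2 := h l
    rw [sum_val_eq, hs] at h2
    have h3 : (d : ℚ) * ∑ a, ε a * gz gB ((l : ZMod d) * a) = d * 0 := by linarith
    exact mul_left_cancel₀ hd h3
  rw [gam_eq_gG, KO_module ε h1 oddDist_gG l, hs, zero_add]
  congr 1
  ring

/-- the theorem of Koblitz and Ogus -/
theorem gam_zero (ε : ZMod d → ℚ)
    (h : ∀ l : (ZMod d)ˣ, ∑ a : ZMod d, ε a * (((l : ZMod d) * a).val : ℚ) = 0)
    (l : (ZMod d)ˣ) : gam ε l = 0 := by
  have := gam_const ε 0 (fun l => by rw [h l, mul_zero]) l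
  rw [this, zero_smul]

theorem gam_add (ε ε' : ZMod d → ℚ) (l : (ZMod d)ˣ) :
    gam (fun a => ε a + ε' a) l = gam ε l + gam ε' l := by
  unfold gam
  rw [← sum_add_distrib]
  exact sum_congr rfl fun a _ => add_smul _ _ _

theorem gam_sub (ε ε' : ZMod d → ℚ) (l : (ZMod d)ˣ) :
    gam (fun a => ε a - ε' a) l = gam ε l - gam ε' l := by
  unfold gam
  rw [← sum_sub_distrib]
  exact sum_congr rfl fun a _ => sub_smul _ _ _

theorem gam_smul (c : ℚ) (ε : ZMod d → ℚ) (l : (ZMod d)ˣ) :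
    gam (fun a => c * ε a) l = c • gam ε l := by
  unfold gam
  rw [smul_sum]
  exact sum_congr rfl fun a _ => mul_smul _ _ _

/-- the Gamma product depends only on the exponents -/
theorem gam_wd (ε ε' : ZMod d → ℚ)
    (h : ∀ l : (ZMod d)ˣ, ∑ a : ZMod d, ε a * (((l : ZMod d) * a).val : ℚ) =
      ∑ a : ZMod d, ε' a * (((l : ZMod d) * a).val : ℚ)) (l : (ZMod d)ˣ) : gam ε l = gam ε' l := by
  rw [← sub_eq_zero, ← gam_sub]
  apply gam_zero
  intro l
  simp_rw [sub_mul]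
  rw [sum_sub_distrib, h l, sub_self]

/-- twisting by a unit -/
theorem gam_twist (ε : ZMod d → ℚ) (l u : (ZMod d)ˣ) :
    gam (fun a => ε (a * ((u⁻¹ : (ZMod d)ˣ) : ZMod d))) l = gam ε (l * u) := by
  unfold gam
  refine sum_congr rfl fun a _ => ?_
  change ε (a * ((l⁻¹ : (ZMod d)ˣ) : ZMod d) * ((u⁻¹ : (ZMod d)ˣ) : ZMod d)) • gval a = _
  rw [mul_inv, Units.val_mul, ← mul_assoc]

theorem sum_twist (ε : ZMod d → ℚ) (l u : (ZMod d)ˣ) :
    ∑ a : ZMod d, ε (a * ((u⁻¹ : (ZMod d)ˣ) : ZMod d)) * (((l : ZMod d) * a).val : ℚ) =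
      ∑ a : ZMod d, ε a * ((((l * u : (ZMod d)ˣ) : ZMod d) * a).val : ℚ) := by
  rw [← Equiv.sum_comp (Units.mulLeft u)]
  refine sum_congr rfl fun a _ => ?_
  simp only [Units.mulLeft_apply]
  rw [mul_comm (u : ZMod d) a, Units.mul_inv_cancel_right, Units.val_mul]
  congr 3
  ring

end

/-! ### existence of exponents -/

section
variable {d : ℕ} [NeZero d]

/-- the fibres of reduction of units all have the same size -/
theorem R_conductor_ne_zero (ψ : DirichletCharacter ℂ d) (hψ : ψ.Odd) :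
    R ψ.primitiveCharacter gBC d (d / ψ.conductor) ≠ 0 := by
  have hf : NeZero ψ.conductor := ⟨conductor_ne_zero ψ⟩
  have hprim := ψ.primitiveCharacter_isPrimitive
  have hodd : (ψ.primitiveCharacter).Odd := by
    have h := primitiveCharacter_apply_of_isCoprime ψ (a := -1) (isCoprime_one_left.neg_left)
    unfold DirichletCharacter.Odd at hψ ⊢
    push_cast at h
    rw [h, hψ]
  have hS := S_gBC_ne_zero _ hodd hprim
  have hfd := conductor_dvd_level ψ
  set f := ψ.conductor with hfdef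
  set χ := ψ.primitiveCharacter with hχdef
  have hdpos := NeZero.pos d
  have hfpos := NeZero.pos f
  obtain ⟨k, hk⟩ := hfd
  have hkpos : 0 < k := by
    rcases Nat.eq_zero_or_pos k with h0 | h0
    · subst h0; omega
    · exact h0
  have hdk : d / f = k := by rw [hk, Nat.mul_div_cancel_left k hfpos]
  -- rewrite as a sum over units
  have h1 : R χ gBC d (d / f) = ∑ l : (ZMod d)ˣ, χ ((ZMod.unitsMap ⟨k, hk⟩ l : (ZMod f)ˣ) : ZMod f) *
      gz gBC ((ZMod.unitsMap ⟨k, hk⟩ l : (ZMod f)ˣ) : ZMod f) := by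
    unfold R
    rw [← sum_units (fun w => χ (w : ZMod f) * gBC (((w * (d / f) : ℕ) : ℚ) / d))]
    refine sum_congr rfl fun l _ => ?_
    have h2 : ((ZMod.unitsMap ⟨k, hk⟩ l : (ZMod f)ˣ) : ZMod f) = (((l : ZMod d).val : ℕ) : ZMod f) := by
      simp only [ZMod.unitsMap_def, Units.coe_map, MonoidHom.coe_coe, ZMod.castHom_apply]
      rw [ZMod.cast_eq_val]
    rw [h2, gz_natCast oddDist_gBC]
    congr 2
    rw [hdk]
    have hf' : (f : ℚ) ≠ 0 := by exact_mod_cast hfpos.ne'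
    have hk' : (k : ℚ) ≠ 0 := by exact_mod_cast hkpos.ne'
    have hd' : (d : ℚ) = f * k := by exact_mod_cast hk
    rw [hd']
    push_cast
    field_simp
  -- count fibres
  have h2 : ∑ l : (ZMod d)ˣ, χ ((ZMod.unitsMap ⟨k, hk⟩ l : (ZMod f)ˣ) : ZMod f) *
      gz gBC ((ZMod.unitsMap ⟨k, hk⟩ l : (ZMod f)ˣ) : ZMod f) =
      ((univ.filter (fun l : (ZMod d)ˣ => ZMod.unitsMap ⟨k, hk⟩ l = (1 : (ZMod f)ˣ))).card : ℂ) *
        ∑ u : (ZMod f)ˣ, χ (u : ZMod f) * gz gBC (u : ZMod f) := by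
    rw [mul_sum, ← sum_fiberwise univ (fun l : (ZMod d)ˣ => ZMod.unitsMap ⟨k, hk⟩ l)]
    refine sum_congr rfl fun u _ => ?_
    have h3 : ∀ l ∈ univ.filter (fun l : (ZMod d)ˣ => ZMod.unitsMap ⟨k, hk⟩ l = u),
        χ ((ZMod.unitsMap ⟨k, hk⟩ l : (ZMod f)ˣ) : ZMod f) *
          gz gBC ((ZMod.unitsMap ⟨k, hk⟩ l : (ZMod f)ˣ) : ZMod f) =
          χ (u : ZMod f) * gz gBC (u : ZMod f) := by
      intro l hl
      rw [(mem_filter.1 hl).2]
    rw [sum_congr rfl h3, sum_const, nsmul_eq_mul]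
    congr 2
    exact MonoidHom.card_fiber_eq_of_mem_range (ZMod.unitsMap ⟨k, hk⟩)
      (ZMod.unitsMap_surjective _ u) (ZMod.unitsMap_surjective _ 1)
  have h3 : ∑ u : (ZMod f)ˣ, χ (u : ZMod f) * gz gBC (u : ZMod f) = S χ gBC := by
    have h4 : ∀ u : (ZMod f)ˣ, χ (u : ZMod f) * gz gBC (u : ZMod f) =
        (fun w : ℕ => χ (w : ZMod f) * gBC ((w : ℚ) / f)) (u : ZMod f).val := by
      intro u
      simp only [ZMod.natCast_zmod_val]
      rfl
    simp_rw [h4]
    rw [sum_units (fun w : ℕ => χ (w : ZMod f) * gBC ((w : ℚ) / f)), sum_filter]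
    unfold S
    refine sum_congr rfl fun w _ => ?_
    by_cases hw : w.Coprime f
    · rw [if_pos hw]
    · rw [if_neg hw, χ.map_nonunit (by rw [ZMod.isUnit_iff_coprime]; exact hw), zero_mul]
  rw [h1, h2, h3]
  refine mul_ne_zero ?_ hS
  have h4 : (univ.filter (fun l : (ZMod d)ˣ => ZMod.unitsMap ⟨k, hk⟩ l = (1 : (ZMod f)ˣ))).Nonempty :=
    ⟨1, mem_filter.2 ⟨mem_univ _, map_one _⟩⟩
  exact_mod_cast (card_pos.2 h4).ne'

/-- a rational function on units orthogonal to all Bernoulli functions has zero odd part -/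
theorem odd_part_zero (c : (ZMod d)ˣ → ℚ)
    (hc : ∀ a : ZMod d, ∑ l : (ZMod d)ˣ, c l * gz gB ((l : ZMod d) * a) = 0) (l : (ZMod d)ˣ) :
    c l = c (-l) := by
  have key : (fun l : (ZMod d)ˣ => ((c l⁻¹ : ℚ) : ℂ) - ((c (-l⁻¹) : ℚ) : ℂ)) = 0 := by
    apply eq_zero_of_char
    intro ψ
    rcases ψ.even_or_odd with hψ | hψ
    · apply sum_even ψ hψ
      intro l
      rw [inv_neg, neg_neg]
      ring
    · have h1 : ∑ l : (ZMod d)ˣ, ψ (l : ZMod d) * ((c (-l⁻¹) : ℚ) : ℂ) =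
          -∑ l : (ZMod d)ˣ, ψ (l : ZMod d) * ((c l⁻¹ : ℚ) : ℂ) := by
        have h := Equiv.sum_comp (Equiv.neg (ZMod d)ˣ)
          (fun l => ψ (l : ZMod d) * ((c (-l⁻¹) : ℚ) : ℂ))
        simp only [Equiv.neg_apply, Units.val_neg] at h
        rw [← h, ← sum_neg_distrib]
        refine sum_congr rfl fun l _ => ?_
        rw [hψ.eval_neg, inv_neg, neg_neg]
        ring
      have h2 : (∑ l : (ZMod d)ˣ, ψ (l : ZMod d) * ((c l⁻¹ : ℚ) : ℂ)) = 0 := by
        have h3 : (∑ l : (ZMod d)ˣ, ψ (l : ZMod d) * ((c l⁻¹ : ℚ) : ℂ)) *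
            R ψ.primitiveCharacter gBC d (d / ψ.conductor) = 0 := by
          set a : ZMod d := ((d / ψ.conductor : ℕ) : ZMod d) with ha
          have h4 : R ψ.primitiveCharacter gBC d (d / ψ.conductor) =
              ∑ l : (ZMod d)ˣ, ψ (l : ZMod d) * gz gBC ((l : ZMod d) * a) := by
            rw [units_eq_R ψ oddDist_gBC a]
            unfold R
            refine sum_congr rfl fun w _ => ?_
            congr 1
            apply oddDist_gBC.congr_mod (NeZero.pos d)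
            apply Nat.ModEq.mul_left
            rw [ha, ZMod.val_natCast]
            exact (Nat.mod_modEq _ _).symm
          rw [h4, sum_mul_sum]
          -- substitute the second variable
          have h5 : ∀ l : (ZMod d)ˣ, ∑ u : (ZMod d)ˣ, ψ (l : ZMod d) * ((c l⁻¹ : ℚ) : ℂ) *
              (ψ (u : ZMod d) * gz gBC ((u : ZMod d) * a)) =
              ∑ u : (ZMod d)ˣ, ψ (u : ZMod d) * (((c l⁻¹ : ℚ) : ℂ) *
                gz gBC (((l⁻¹ * u : (ZMod d)ˣ) : ZMod d) * a)) := by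
            intro l
            rw [← Equiv.sum_comp (Equiv.mulLeft l⁻¹)]
            refine sum_congr rfl fun u _ => ?_
            simp only [Equiv.coe_mulLeft]
            have h6 : ψ (l : ZMod d) * ψ ((l⁻¹ * u : (ZMod d)ˣ) : ZMod d) = ψ (u : ZMod d) := by
              rw [← map_mul, ← Units.val_mul, mul_inv_cancel_left]
            rw [← h6]
            ring
          simp_rw [h5]
          rw [sum_comm]
          refine sum_eq_zero fun u _ => ?_
          rw [← mul_sum]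
          have h7 : ∑ l : (ZMod d)ˣ, ((c l⁻¹ : ℚ) : ℂ) *
              gz gBC (((l⁻¹ * u : (ZMod d)ˣ) : ZMod d) * a) = 0 := by
            rw [← Equiv.sum_comp (Equiv.inv (ZMod d)ˣ)]
            simp only [Equiv.inv_apply, inv_inv]
            have h8 := congrArg (fun q : ℚ => (q : ℂ)) (hc ((u : ZMod d) * a))
            push_cast at h8
            rw [← h8]
            refine sum_congr rfl fun l _ => ?_
            rw [Units.val_mul, mul_assoc]
            rfl
          rw [h7, mul_zero]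
        rcases mul_eq_zero.1 h3 with h | h
        · exact h
        · exact absurd h (R_conductor_ne_zero ψ hψ)
      simp_rw [mul_sub]
      rw [sum_sub_distrib, h1, h2]
      ring
  have h := congrFun key l⁻¹
  simp only [inv_inv, Pi.zero_apply] at h
  have h2 : ((c l : ℚ) : ℂ) = ((c (-l) : ℚ) : ℂ) := sub_eq_zero.1 h
  exact_mod_cast h2

/-- every odd rational function on units is a combination of Bernoulli functions -/
theorem exists_odd (o : (ZMod d)ˣ → ℚ) (ho : ∀ l, o (-l) = -o l) :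
    ∃ ε : ZMod d → ℚ, ∀ l : (ZMod d)ˣ, ∑ a, ε a * gz gB ((l : ZMod d) * a) = o l := by
  let L : (ZMod d → ℚ) →ₗ[ℚ] ((ZMod d)ˣ → ℚ) :=
    { toFun := fun ε l => ∑ a, ε a * gz gB ((l : ZMod d) * a)
      map_add' := by
        intro x y
        funext l
        simp only [Pi.add_apply, add_mul, sum_add_distrib]
      map_smul' := by
        intro c x
        funext l
        simp only [Pi.smul_apply, smul_eq_mul, RingHom.id_apply, mul_sum, mul_assoc] }
  by_contra hcon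
  have hmem : o ∉ LinearMap.range L := by
    rintro ⟨ε, hε⟩
    exact hcon ⟨ε, fun l => congrFun hε l⟩
  obtain ⟨φ, hφ, hle⟩ := Submodule.exists_le_ker_of_notMem hmem
  apply hφ
  set c : (ZMod d)ˣ → ℚ := fun l => φ (Pi.single l 1) with hcdef
  have hφc : ∀ x : (ZMod d)ˣ → ℚ, φ x = ∑ l, c l * x l := by
    intro x
    have h1 : x = ∑ l, x l • (Pi.single l (1 : ℚ) : (ZMod d)ˣ → ℚ) := by
      funext l
      simp [Finset.sum_apply, Pi.single_apply]
    conv_lhs => rw [h1]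
    rw [map_sum]
    refine sum_congr rfl fun l _ => ?_
    rw [map_smul, smul_eq_mul, mul_comm]
  have hc : ∀ a : ZMod d, ∑ l : (ZMod d)ˣ, c l * gz gB ((l : ZMod d) * a) = 0 := by
    intro a
    have h1 : φ (L (Pi.single a 1)) = 0 := hle ⟨_, rfl⟩
    rw [hφc] at h1
    rw [← h1]
    refine sum_congr rfl fun l _ => ?_
    congr 1
    change _ = ∑ b, (Pi.single a (1 : ℚ) : ZMod d → ℚ) b * gz gB ((l : ZMod d) * b)
    simp [Pi.single_apply]
  have heven := odd_part_zero c hc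
  rw [hφc]
  have h := Equiv.sum_comp (Equiv.neg (ZMod d)ˣ) (fun l => c l * o l)
  simp only [Equiv.neg_apply] at h
  have h2 : ∀ l, c (-l) * o (-l) = -(c l * o l) := by
    intro l
    rw [ho l, ← heven l]
    ring
  simp_rw [h2] at h
  rw [sum_neg_distrib] at h
  linarith

/-- existence of exponents -/
theorem exists_eps (hd : 2 ≤ d) (p : (ZMod d)ˣ → ℚ) (m : ℚ) (hp : ∀ l, p l + p (-l) = m) :
    ∃ ε : ZMod d → ℚ, ∀ l : (ZMod d)ˣ,
      ∑ a : ZMod d, ε a * (((l : ZMod d) * a).val : ℚ) = d * p l := by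
  obtain ⟨ε, hε⟩ := exists_odd (fun l => p l - m / 2) (by
    intro l
    linear_combination hp l)
  set s : ℚ := (m - ∑ a ∈ univ.erase (0 : ZMod d), ε a) / (d - 1) with hs
  have hd1 : (d : ℚ) - 1 ≠ 0 := by
    have : (2 : ℚ) ≤ d := by exact_mod_cast hd
    intro h
    linarith
  refine ⟨fun a => ε a + s, fun l => ?_⟩
  rw [sum_val_eq]
  have h1 : ∑ a : ZMod d, (ε a + s) * gz gB ((l : ZMod d) * a) = p l - m / 2 := by
    simp_rw [add_mul]
    rw [sum_add_distrib, hε l, ← mul_sum]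
    have h2 : ∑ a : ZMod d, gz gB ((l : ZMod d) * a) = 0 := by
      have h3 := Equiv.sum_comp (Equiv.neg (ZMod d)) (fun a => gz gB ((l : ZMod d) * a))
      simp only [Equiv.neg_apply] at h3
      simp_rw [mul_neg, gz_neg oddDist_gB] at h3
      rw [sum_neg_distrib] at h3
      linarith
    rw [h2]
    ring
  have h2 : ∑ a ∈ univ.erase (0 : ZMod d), (ε a + s) = m := by
    rw [sum_add_distrib, sum_const, card_erase_of_mem (mem_univ _), card_univ, ZMod.card,
      nsmul_eq_mul, Nat.cast_sub (by omega), hs]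
    push_cast
    field_simp
    ring
  rw [h1, h2]
  ring

end

end Pool.Agent.H11.GD
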