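import Pool.Agent.H11.GD.Ker
import Pool.Agent.H76.LOne

/-!
# The theorem of Koblitz and Ogus for odd distributions
-/

set_option autoImplicit false

open Finset DirichletCharacter

noncomputable section

namespace Pool.Agent.H11.GD

/-! ### nonvanishing of the first Bernoulli number -/

theorem LFunction_smul {N : ℕ} [NeZero N] (χ : DirichletCharacter ℂ N) (c : ℂ) (s : ℂ) :
    ZMod.LFunction (fun k => c * χ k) s = c * χ.LFunction s := by
  unfold DirichletCharacter.LFunction ZMod.LFunction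
  simp only [mul_sum]
  refine sum_congr rfl fun j _ => ?_
  ring

theorem sum_val_ne_zero {N : ℕ} [NeZero N] (χ : DirichletCharacter ℂ N) (hodd : χ.Odd)
    (hprim : χ.IsPrimitive) : ∑ j : ZMod N, (j.val : ℂ) * χ j ≠ 0 := by
  intro h0
  have h1 := Pool.Agent.H76.LFunction_dft_one (fun k => χ k) (fun x => hodd.eval_neg _ x)
  rw [h0, mul_zero] at h1
  have hodd' : (χ⁻¹).Odd := by
    unfold DirichletCharacter.Odd
    rw [MulChar.inv_apply_eq_inv', hodd]
    norm_num
  have h2 : ZMod.dft (fun k => χ k) = fun k => (-gaussSum χ ZMod.stdAddChar) * χ⁻¹ k := by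
    funext k
    have h := hprim.fourierTransform_eq_inv_mul_gaussSum k
    rw [hodd'.eval_neg] at h
    rw [h]
    ring
  rw [h2, LFunction_smul] at h1
  have hne : χ⁻¹ ≠ 1 := by
    intro h
    have h3 := hodd'
    rw [h] at h3
    unfold DirichletCharacter.Odd at h3
    rw [MulChar.one_apply (isUnit_one.neg)] at h3
    norm_num at h3
  have h4 := LFunction_apply_one_ne_zero hne
  have h5 : gaussSum χ ZMod.stdAddChar = 0 := by
    rcases mul_eq_zero.1 h1 with h | h
    · exact neg_eq_zero.1 h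
    · exact absurd h h4
  rw [h5, neg_zero] at h2
  have h6 : ZMod.dft (fun k => χ k) = 0 := by
    rw [h2]
    funext k
    simp
  have h7 : (fun k => χ k) = 0 := (LinearEquiv.map_eq_zero_iff ZMod.dft).1 h6
  have h8 := congrFun h7 1
  simp at h8

theorem sum_val_range {N : ℕ} [NeZero N] (F : ZMod N → ℂ) :
    ∑ j : ZMod N, F j = ∑ w ∈ range N, F (w : ZMod N) := by
  refine sum_nbij' (fun j => j.val) (fun w => (w : ZMod N)) ?_ ?_ ?_ ?_ ?_
  · intro j _
    exact mem_range.2 (ZMod.val_lt j)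
  · intro w _
    exact mem_univ _
  · intro j _
    exact ZMod.natCast_zmod_val j
  · intro w hw
    exact ZMod.val_cast_of_lt (mem_range.1 hw)
  · intro j _
    rw [ZMod.natCast_zmod_val]

/-- the Bernoulli distribution with complex values -/
def gBC (y : ℚ) : ℂ := (gB y : ℂ)

theorem OddDist.map {W W' : Type*} [AddCommGroup W] [AddCommGroup W'] {g : ℚ → W}
    (hg : OddDist g) (φ : W →+ W') : OddDist (fun y => φ (g y)) where
  per y := by rw [hg.per]
  odd y := by rw [hg.odd, map_neg]
  dist M hM x := by rw [← map_sum, hg.dist M hM]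

theorem oddDist_gBC : OddDist gBC := oddDist_gB.map (Rat.castHom ℂ).toAddMonoidHom

theorem S_gBC_ne_zero {N : ℕ} [NeZero N] (χ : DirichletCharacter ℂ N) (hodd : χ.Odd)
    (hprim : χ.IsPrimitive) : S χ gBC ≠ 0 := by
  have hN : (0 : ℚ) < N := by exact_mod_cast NeZero.pos N
  have hNC : (N : ℂ) ≠ 0 := by exact_mod_cast NeZero.ne N
  have hχ0 : χ 0 = 0 := by
    have h := hodd.eval_neg χ 0
    rw [neg_zero] at h
    linear_combination (1 / 2 : ℂ) * h
  have hsum : ∑ j : ZMod N, χ j = 0 := by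
    have h := Equiv.sum_comp (Equiv.neg (ZMod N)) (fun j => χ j)
    simp only [Equiv.neg_apply] at h
    simp_rw [hodd.eval_neg] at h
    rw [sum_neg_distrib] at h
    linear_combination (-1 / 2 : ℂ) * h
  have h1 : S χ gBC = (1 / (N : ℂ)) * ∑ j : ZMod N, (j.val : ℂ) * χ j := by
    unfold S
    have h2 : ∀ w ∈ range N, χ (w : ZMod N) * gBC ((w : ℚ) / N) =
        (1 / (N : ℂ)) * ((((w : ZMod N)).val : ℂ) * χ (w : ZMod N)) - (1 / 2) * χ (w : ZMod N) := by
      intro w hw
      have hw' : w < N := mem_range.1 hw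
      rw [ZMod.val_cast_of_lt hw']
      rcases Nat.eq_zero_or_pos w with h0 | h0
      · subst h0
        simp [hχ0]
      · have h3 : Int.fract ((w : ℚ) / N) = (w : ℚ) / N := by
          rw [Int.fract_eq_self]
          refine ⟨by positivity, ?_⟩
          rw [div_lt_one hN]
          exact_mod_cast hw'
        have h4 : (w : ℚ) / N ≠ 0 := by
          have : (0 : ℚ) < w := by exact_mod_cast h0
          positivity
        unfold gBC gB
        rw [h3, if_neg h4]
        push_cast
        ring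
    rw [sum_congr rfl h2, sum_sub_distrib, ← mul_sum, ← mul_sum,
      ← sum_val_range (fun j => (j.val : ℂ) * χ j), ← sum_val_range (fun j => χ j), hsum]
    ring
  rw [h1]
  exact mul_ne_zero (by simpa using hNC) (sum_val_ne_zero χ hodd hprim)

/-! ### sums over units -/

theorem sum_dvd {d e : ℕ} (hd : 0 < d) (he : e ∣ d) (F : ℕ → ℂ) :
    ∑ w ∈ (range d).filter (fun w => e ∣ w), F w = ∑ w ∈ range (d / e), F (e * w) := by
  have he0 : 0 < e := Nat.pos_of_dvd_of_pos he hd
  symm
  refine sum_nbij' (fun w => e * w) (fun w => w / e) ?_ ?_ ?_ ?_ ?_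
  · intro w hw
    have hw' : w < d / e := mem_range.1 hw
    refine mem_filter.2 ⟨mem_range.2 ?_, dvd_mul_right e w⟩
    exact (Nat.lt_div_iff_mul_lt' he w).1 hw'
  · intro w hw
    obtain ⟨h1, h2⟩ := mem_filter.1 hw
    have h1' : w < d := mem_range.1 h1
    refine mem_range.2 ?_
    exact Nat.div_lt_div_of_lt_of_dvd he h1'
  · intro w _
    exact Nat.mul_div_cancel_left w he0
  · intro w hw
    exact Nat.mul_div_cancel' (mem_filter.1 hw).2
  · intro w _
    rfl

theorem sum_coprime {d : ℕ} (hd : 0 < d) (F : ℕ → ℂ) :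
    ∑ w ∈ (range d).filter (fun w => w.Coprime d), F w =
      ∑ e ∈ d.divisors, (ArithmeticFunction.moebius e : ℂ) * ∑ w ∈ range (d / e), F (e * w) := by
  have h1 : ∀ e ∈ d.divisors, (ArithmeticFunction.moebius e : ℂ) * ∑ w ∈ range (d / e), F (e * w) =
      ∑ w ∈ range d, if e ∣ w then (ArithmeticFunction.moebius e : ℂ) * F w else 0 := by
    intro e he
    rw [← sum_dvd hd (Nat.dvd_of_mem_divisors he), sum_filter, mul_sum]
    refine sum_congr rfl fun w _ => ?_
    split_ifs <;> simp
  rw [sum_congr rfl h1, sum_comm, sum_filter]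
  refine sum_congr rfl fun w _ => ?_
  have h2 : ∑ e ∈ d.divisors, (if e ∣ w then (ArithmeticFunction.moebius e : ℂ) * F w else 0) =
      (∑ e ∈ (Nat.gcd w d).divisors, (ArithmeticFunction.moebius e : ℂ)) * F w := by
    rw [← sum_filter, sum_mul]
    refine sum_congr ?_ fun _ _ => rfl
    ext e
    simp only [mem_filter, Nat.mem_divisors, Nat.dvd_gcd_iff, ne_eq, Nat.gcd_eq_zero_iff]
    constructor
    · rintro ⟨⟨h3, h4⟩, h5⟩
      exact ⟨⟨h5, h3⟩, fun h => h4 h.2⟩
    · rintro ⟨⟨h5, h3⟩, _⟩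
      exact ⟨⟨h3, hd.ne'⟩, h5⟩
  rw [h2]
  have h3 : ∑ e ∈ (Nat.gcd w d).divisors, (ArithmeticFunction.moebius e : ℂ) =
      if Nat.gcd w d = 1 then 1 else 0 := by
    have h4 := congrArg (fun x : ArithmeticFunction ℤ => x (Nat.gcd w d))
      ArithmeticFunction.moebius_mul_coe_zeta
    simp only [ArithmeticFunction.coe_mul_zeta_apply, ArithmeticFunction.one_apply] at h4
    have h5 := congrArg (fun z : ℤ => (z : ℂ)) h4
    push_cast at h5
    exact h5
  rw [h3]
  unfold Nat.Coprime
  split_ifs <;> simp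

/-- the sum over residues prime to `d` -/
def R {f : ℕ} (χ : DirichletCharacter ℂ f) (g : ℚ → ℂ) (d a : ℕ) : ℂ :=
  ∑ w ∈ (range d).filter (fun w => w.Coprime d), χ (w : ZMod f) * g (((w * a : ℕ) : ℚ) / d)

theorem R_eq {f : ℕ} (χ : DirichletCharacter ℂ f) (hχ : χ.IsPrimitive) {d : ℕ} (hd : 0 < d)
    (hfd : f ∣ d) (a : ℕ) : ∃ c : ℂ, ∀ g : ℚ → ℂ, OddDist g → R χ g d a = c * S χ g := by
  have h1 : ∀ e : ℕ, ∃ c : ℂ, e ∈ d.divisors → ∀ g : ℚ → ℂ, OddDist g →
      (ArithmeticFunction.moebius e : ℂ) * ∑ w ∈ range (d / e), χ ((e * w : ℕ) : ZMod f) *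
        g (((e * w * a : ℕ) : ℚ) / d) = c * S χ g := by
    intro e
    by_cases he : e ∈ d.divisors
    swap
    · exact ⟨0, fun h => absurd h he⟩
    have hed : e ∣ d := Nat.dvd_of_mem_divisors he
    have he0 : 0 < e := Nat.pos_of_dvd_of_pos hed hd
    by_cases hcop : e.Coprime f
    · obtain ⟨D, hD⟩ := hed
      have hD0 : 0 < D := by
        rcases Nat.eq_zero_or_pos D with h0 | h0
        · subst h0; omega
        · exact h0
      have hfD : f ∣ D := by
        rw [hD] at hfd
        exact (Nat.Coprime.dvd_of_dvd_mul_left hcop.symm hfd)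
      obtain ⟨c, hc⟩ := T_eq χ hχ hD0 hfD a
      refine ⟨(ArithmeticFunction.moebius e : ℂ) * (χ (e : ZMod f) * c), fun _ g hg => ?_⟩
      have hDe : d / e = D := by rw [hD, Nat.mul_div_cancel_left D he0]
      have hin : ∑ w ∈ range (d / e), χ ((e * w : ℕ) : ZMod f) * g (((e * w * a : ℕ) : ℚ) / d) =
          χ (e : ZMod f) * (c * S χ g) := by
        rw [← hc g hg, hDe]
        unfold T
        rw [mul_sum]
        refine sum_congr rfl fun w _ => ?_
        have h2 : ((e * w * a : ℕ) : ℚ) / d = ((w * a : ℕ) : ℚ) / D := by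
          have he' : (e : ℚ) ≠ 0 := by exact_mod_cast he0.ne'
          have hD' : (D : ℚ) ≠ 0 := by exact_mod_cast hD0.ne'
          rw [hD]
          push_cast
          field_simp
        rw [h2]
        push_cast
        rw [map_mul, mul_assoc]
      rw [hin]
      ring
    · refine ⟨0, fun _ g _ => ?_⟩
      have h2 : ∀ w ∈ range (d / e), χ ((e * w : ℕ) : ZMod f) * g (((e * w * a : ℕ) : ℚ) / d) = 0 := by
        intro w _
        have h3 : χ ((e : ℕ) : ZMod f) = 0 := by
          apply χ.map_nonunit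
          rw [ZMod.isUnit_iff_coprime]
          exact hcop
        push_cast
        rw [map_mul, h3]
        ring
      rw [sum_eq_zero h2]
      ring
  choose c hc using h1
  refine ⟨∑ e ∈ d.divisors, c e, fun g hg => ?_⟩
  unfold R
  rw [sum_coprime hd (fun w => χ (w : ZMod f) * g (((w * a : ℕ) : ℚ) / d)), sum_mul]
  exact sum_congr rfl fun e he => hc e he g hg

end Pool.Agent.H11.GD
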