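import Pool.Agent.H11.GD.KO

/-!
# The theorem of Koblitz and Ogus, second part: sums over units and the final statements
-/

set_option autoImplicit false

open Finset DirichletCharacter

noncomputable section

namespace Pool.Agent.H11.GD

section
variable {d : ℕ} [NeZero d]

/-- value of a function on the rational numbers at `x / d` -/
def gz {W : Type*} (g : ℚ → W) (x : ZMod d) : W := g ((x.val : ℚ) / d)

theorem gz_natCast {W : Type*} [AddCommGroup W] {g : ℚ → W} (hg : OddDist g) (n : ℕ) :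
    gz g (n : ZMod d) = g ((n : ℚ) / d) := by
  unfold gz
  apply hg.congr_mod (NeZero.pos d)
  rw [ZMod.val_natCast]
  exact Nat.mod_modEq n d

theorem gz_neg {W : Type*} [AddCommGroup W] {g : ℚ → W} (hg : OddDist g) (x : ZMod d) :
    gz g (-x) = -gz g x := by
  have hd : (d : ℚ) ≠ 0 := by exact_mod_cast NeZero.ne d
  unfold gz
  rw [← hg.odd, ← hg.int ((((-x).val : ℕ) : ℚ) / d) (-1), ← hg.int (-((x.val : ℚ) / d)) 0]
  by_cases hx : x = 0
  · subst hx
    rw [hg.int, hg.int]
    simp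
  · have h1 : ((-x).val : ℚ) = d - x.val := by
      have : NeZero x := ⟨hx⟩
      rw [ZMod.val_neg_of_ne_zero x, Nat.cast_sub (ZMod.val_le x)]
    rw [h1]
    congr 1
    push_cast
    field_simp
    ring

/-- the sum over units equals the sum over residues prime to `d` -/
theorem sum_units (F : ℕ → ℂ) :
    ∑ l : (ZMod d)ˣ, F (l : ZMod d).val = ∑ w ∈ (range d).filter (fun w => w.Coprime d), F w := by
  refine sum_bij (fun (l : (ZMod d)ˣ) _ => (l : ZMod d).val) ?_ ?_ ?_ ?_
  · intro l _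
    exact mem_filter.2 ⟨mem_range.2 (ZMod.val_lt _), ZMod.val_coe_unit_coprime l⟩
  · intro l _ l' _ h
    exact Units.ext (ZMod.val_injective d h)
  · intro w hw
    obtain ⟨h1, h2⟩ := mem_filter.1 hw
    refine ⟨ZMod.unitOfCoprime w h2, mem_univ _, ?_⟩
    rw [ZMod.coe_unitOfCoprime, ZMod.val_cast_of_lt (mem_range.1 h1)]
  · intro l _
    rfl

/-- the character sum over units -/
theorem units_eq_R (ψ : DirichletCharacter ℂ d) {g : ℚ → ℂ} (hg : OddDist g) (a : ZMod d) :
    ∑ l : (ZMod d)ˣ, ψ (l : ZMod d) * gz g ((l : ZMod d) * a) = R ψ.primitiveCharacter g d a.val := by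
  unfold R
  rw [← sum_units (fun w => ψ.primitiveCharacter (w : ZMod ψ.conductor) *
    g (((w * a.val : ℕ) : ℚ) / d))]
  refine sum_congr rfl fun l _ => ?_
  congr 1
  · have h := primitiveCharacter_apply_of_isCoprime ψ (a := (((l : ZMod d).val : ℕ) : ℤ))
      (Nat.isCoprime_iff_coprime.2 (ZMod.val_coe_unit_coprime l))
    rw [Int.cast_natCast, Int.cast_natCast, ZMod.natCast_zmod_val] at h
    exact h.symm
  · unfold gz
    apply hg.congr_mod (NeZero.pos d)
    rw [ZMod.val_mul]
    exact Nat.mod_modEq _ _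

/-- Fourier inversion on the group of units -/
theorem eq_zero_of_char (c : (ZMod d)ˣ → ℂ)
    (h : ∀ ψ : DirichletCharacter ℂ d, ∑ l : (ZMod d)ˣ, ψ (l : ZMod d) * c l = 0) : c = 0 := by
  funext l0
  have h1 : ∑ ψ : DirichletCharacter ℂ d, ψ ((l0 : ZMod d)⁻¹) *
      ∑ l : (ZMod d)ˣ, ψ (l : ZMod d) * c l = 0 := by
    refine sum_eq_zero fun ψ _ => ?_
    rw [h ψ, mul_zero]
  simp_rw [mul_sum] at h1
  rw [sum_comm] at h1
  have h2 : ∀ l : (ZMod d)ˣ, ∑ ψ : DirichletCharacter ℂ d,
      ψ ((l0 : ZMod d)⁻¹) * (ψ (l : ZMod d) * c l) = if l0 = l then (d.totient : ℂ) * c l else 0 := by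
    intro l
    have h3 := DirichletCharacter.sum_char_inv_mul_char_eq ℂ (n := d) l0.isUnit (l : ZMod d)
    calc ∑ ψ : DirichletCharacter ℂ d, ψ ((l0 : ZMod d)⁻¹) * (ψ (l : ZMod d) * c l)
        = (∑ ψ : DirichletCharacter ℂ d, ψ ((l0 : ZMod d)⁻¹) * ψ (l : ZMod d)) * c l := by
          rw [sum_mul]
          exact sum_congr rfl fun ψ _ => by ring
      _ = _ := by
          rw [h3]
          by_cases hl : l0 = l
          · rw [if_pos hl, if_pos (by rw [hl])]
          · rw [if_neg hl, if_neg (fun h => hl (Units.ext h)), zero_mul]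
  simp_rw [h2] at h1
  rw [sum_ite_eq univ l0 (fun l => (d.totient : ℂ) * c l), if_pos (mem_univ _)] at h1
  have h3 : (d.totient : ℂ) ≠ 0 := by
    exact_mod_cast (Nat.totient_pos.2 (NeZero.pos d)).ne'
  rcases mul_eq_zero.1 h1 with h4 | h4
  · exact absurd h4 h3
  · exact h4

/-- an even character is orthogonal to odd functions -/
theorem sum_even (ψ : DirichletCharacter ℂ d) (hψ : ψ.Even) (c : (ZMod d)ˣ → ℂ)
    (hc : ∀ l, c (-l) = -c l) : ∑ l : (ZMod d)ˣ, ψ (l : ZMod d) * c l = 0 := by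
  have h := Equiv.sum_comp (Equiv.neg (ZMod d)ˣ) (fun l => ψ (l : ZMod d) * c l)
  simp only [Equiv.neg_apply, Units.val_neg] at h
  simp_rw [hψ.eval_neg, hc] at h
  simp only [mul_neg, sum_neg_distrib] at h
  linear_combination (-1 / 2 : ℂ) * h

/-- the theorem of Koblitz and Ogus, complex values -/
theorem KO_complex (ε : ZMod d → ℚ)
    (hε : ∀ l : (ZMod d)ˣ, ∑ a, ε a * gz gB ((l : ZMod d) * a) = 0) {g : ℚ → ℂ} (hg : OddDist g)
    (l : (ZMod d)ˣ) : ∑ a, (ε a : ℂ) * gz g ((l : ZMod d) * a) = 0 := by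
  have key : (fun l : (ZMod d)ˣ => ∑ a, (ε a : ℂ) * gz g ((l : ZMod d) * a)) = 0 := by
    apply eq_zero_of_char
    intro ψ
    rcases ψ.even_or_odd with hψ | hψ
    · apply sum_even ψ hψ
      intro l
      rw [← sum_neg_distrib]
      refine sum_congr rfl fun a _ => ?_
      rw [Units.val_neg, neg_mul, gz_neg hg, mul_neg]
    · have hswap : ∀ g' : ℚ → ℂ, OddDist g' → ∑ l : (ZMod d)ˣ, ψ (l : ZMod d) *
          ∑ a, (ε a : ℂ) * gz g' ((l : ZMod d) * a) =
          ∑ a, (ε a : ℂ) * R ψ.primitiveCharacter g' d a.val := by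
        intro g' hg'
        simp_rw [mul_sum]
        rw [sum_comm]
        refine sum_congr rfl fun a _ => ?_
        rw [← units_eq_R ψ hg' a, mul_sum]
        exact sum_congr rfl fun l _ => by ring
      have hf : NeZero ψ.conductor := ⟨conductor_ne_zero ψ⟩
      have hprim := ψ.primitiveCharacter_isPrimitive
      have hodd : (ψ.primitiveCharacter).Odd := by
        have h := primitiveCharacter_apply_of_isCoprime ψ (a := -1) (isCoprime_one_left.neg_left)
        unfold DirichletCharacter.Odd at hψ ⊢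
        push_cast at h
        rw [h, hψ]
      choose c hc using fun a : ZMod d => R_eq ψ.primitiveCharacter hprim (NeZero.pos d)
        (conductor_dvd_level ψ) a.val
      have hC : ∀ g' : ℚ → ℂ, OddDist g' → ∑ a : ZMod d, (ε a : ℂ) *
          R ψ.primitiveCharacter g' d a.val = (∑ a : ZMod d, (ε a : ℂ) * c a) *
            S ψ.primitiveCharacter g' := by
        intro g' hg'
        rw [sum_mul]
        refine sum_congr rfl fun a _ => ?_
        rw [hc a g' hg']
        ring
      have h0 : ∑ l : (ZMod d)ˣ, ψ (l : ZMod d) *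
          ∑ a, (ε a : ℂ) * gz gBC ((l : ZMod d) * a) = 0 := by
        refine sum_eq_zero fun l _ => ?_
        have h1 := congrArg (fun q : ℚ => (q : ℂ)) (hε l)
        push_cast at h1
        have h2 : ∑ a, (ε a : ℂ) * gz gBC ((l : ZMod d) * a) = 0 := h1
        rw [h2, mul_zero]
      rw [hswap gBC oddDist_gBC, hC gBC oddDist_gBC] at h0
      have h1 : ∑ a : ZMod d, (ε a : ℂ) * c a = 0 := by
        rcases mul_eq_zero.1 h0 with h | h
        · exact h
        · exact absurd h (S_gBC_ne_zero _ hodd hprim)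
      rw [hswap g hg, hC g hg, h1, zero_mul]
  exact congrFun key l

/-- the theorem of Koblitz and Ogus for odd distributions in rational vector spaces -/
theorem KO_module {W : Type*} [AddCommGroup W] [Module ℚ W] (ε : ZMod d → ℚ)
    (hε : ∀ l : (ZMod d)ˣ, ∑ a, ε a * gz gB ((l : ZMod d) * a) = 0) {g : ℚ → W} (hg : OddDist g)
    (l : (ZMod d)ˣ) : ∑ a, ε a • gz g ((l : ZMod d) * a) = 0 := by
  rw [← Module.forall_dual_apply_eq_zero_iff ℚ]
  intro φ
  have h1 : OddDist (fun y => ((φ (g y) : ℚ) : ℂ)) :=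
    (hg.map φ.toAddMonoidHom).map (Rat.castHom ℂ).toAddMonoidHom
  have h2 := KO_complex ε hε h1 l
  rw [map_sum]
  simp_rw [map_smul, smul_eq_mul]
  have h3 : ((∑ a, ε a * φ (gz g ((l : ZMod d) * a)) : ℚ) : ℂ) = 0 := by
    push_cast
    exact h2
  exact_mod_cast h3

end

end Pool.Agent.H11.GD
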