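import Pool.Agent.H11.GD.Dist

/-!
# Character sums of odd distributions
-/

set_option autoImplicit false

open Finset DirichletCharacter

noncomputable section

namespace Pool.Agent.H11.GD

theorem sum_mul_coprime {A : Type*} [AddCommMonoid A] {D : ℕ} (hD : 0 < D) {F : ℕ → A}
    (hF : ∀ m n, m ≡ n [MOD D] → F m = F n) {t : ℕ} (ht : t.Coprime D) :
    ∑ n ∈ range D, F (t * n) = ∑ n ∈ range D, F n := by
  have hmap : Set.MapsTo (fun n => (t * n) % D) (range D : Finset ℕ) (range D : Finset ℕ) := by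
    intro n _
    simp only [coe_range, Set.mem_Iio]
    exact Nat.mod_lt _ hD
  have hinj : Set.InjOn (fun n => (t * n) % D) (range D : Finset ℕ) := by
    intro m hm n hn hmn
    simp only [coe_range, Set.mem_Iio] at hm hn
    have h1 : t * m ≡ t * n [MOD D] := hmn
    have h2 : m ≡ n [MOD D] := Nat.ModEq.cancel_left_of_coprime ht.symm h1
    exact Nat.ModEq.eq_of_lt_of_lt h2 hm hn
  have hsurj : Set.SurjOn (fun n => (t * n) % D) (range D : Finset ℕ) (range D : Finset ℕ) :=
    Finset.surjOn_of_injOn_of_card_le _ hmap hinj le_rfl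
  refine Finset.sum_nbij (fun n => (t * n) % D) hmap hinj hsurj fun n _ => ?_
  exact hF _ _ (Nat.mod_modEq _ _).symm

theorem sum_split {A : Type*} [AddCommMonoid A] (M h : ℕ) (F : ℕ → A) :
    ∑ n ∈ range (M * h), F n = ∑ w ∈ range M, ∑ j ∈ range h, F (w + M * j) := by
  induction h with
  | zero => simp
  | succ h ih =>
    rw [Nat.mul_succ, sum_range_add, ih, ← sum_add_distrib]
    refine sum_congr rfl fun w _ => ?_
    rw [sum_range_succ]
    congr 2
    ring

section
variable {f : ℕ} (χ : DirichletCharacter ℂ f)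

theorem chi_congr {D m n : ℕ} (hf : f ∣ D) (h : m ≡ n [MOD D]) : χ (m : ZMod f) = χ (n : ZMod f) := by
  rw [(ZMod.natCast_eq_natCast_iff m n f).2 (h.of_dvd hf)]

/-- the basic character sum -/
def S (g : ℚ → ℂ) : ℂ := ∑ w ∈ range f, χ (w : ZMod f) * g ((w : ℚ) / f)

/-- the character sum of level `D` at `a / D` -/
def T (g : ℚ → ℂ) (D a : ℕ) : ℂ := ∑ w ∈ range D, χ (w : ZMod f) * g (((w * a : ℕ) : ℚ) / D)

theorem chi_ne_zero {n : ℕ} (h : n.Coprime f) : χ (n : ZMod f) ≠ 0 := by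
  have h1 : IsUnit ((n : ℕ) : ZMod f) := (ZMod.isUnit_iff_coprime n f).2 h
  exact (h1.map χ).ne_zero

/-- the distribution relation for the basic character sum -/
theorem sum_level {g : ℚ → ℂ} (hg : OddDist g) {k : ℕ} (hf : 0 < f) (hk : 0 < k) :
    ∑ w ∈ range (f * k), χ (w : ZMod f) * g ((w : ℚ) / (f * k : ℕ)) = S χ g := by
  have hf' : (f : ℚ) ≠ 0 := by exact_mod_cast hf.ne'
  have hk' : (k : ℚ) ≠ 0 := by exact_mod_cast hk.ne'
  rw [sum_split]
  unfold S
  refine sum_congr rfl fun w _ => ?_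
  rw [← hg.dist k hk ((w : ℚ) / f), mul_sum]
  refine sum_congr rfl fun j _ => ?_
  congr 1
  · refine chi_congr χ (dvd_refl f) ?_
    have h1 : w + f * j ≡ w + 0 [MOD f] := (Nat.ModEq.refl w).add ((Nat.modEq_zero_iff_dvd).2 ⟨j, rfl⟩)
    rw [add_zero] at h1
    exact h1
  · congr 1
    push_cast
    field_simp

theorem T_pos {g : ℚ → ℂ} (hg : OddDist g) {M h u : ℕ} (hM : 0 < M) (hh : 0 < h) (hf : f ∣ M)
    (hu : u.Coprime M) :
    T χ g (M * h) (u * h) = ((h : ℂ) * (χ (u : ZMod f))⁻¹) * S χ g := by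
  have hf0 : 0 < f := Nat.pos_of_dvd_of_pos hf hM
  have hM' : (M : ℚ) ≠ 0 := by exact_mod_cast hM.ne'
  have hh' : (h : ℚ) ≠ 0 := by exact_mod_cast hh.ne'
  obtain ⟨k, rfl⟩ := hf
  have hk : 0 < k := Nat.pos_of_mul_pos_left hM |> fun h => by
    rcases Nat.eq_zero_or_pos k with h0 | h0
    · subst h0; simp at hM
    · exact h0
  have h1 : T χ g (f * k * h) (u * h) =
      (h : ℂ) * ∑ w ∈ range (f * k), χ (w : ZMod f) * g (((u * w : ℕ) : ℚ) / (f * k : ℕ)) := by
    unfold T
    rw [sum_split, mul_sum]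
    refine sum_congr rfl fun w _ => ?_
    have h2 : ∀ j ∈ range h, χ ((w + f * k * j : ℕ) : ZMod f) *
        g ((((w + f * k * j) * (u * h) : ℕ) : ℚ) / (f * k * h : ℕ)) =
        χ (w : ZMod f) * g (((u * w : ℕ) : ℚ) / (f * k : ℕ)) := by
      intro j _
      congr 1
      · refine chi_congr χ (dvd_refl f) ?_
        have : w + f * k * j ≡ w + 0 [MOD f] :=
          (Nat.ModEq.refl w).add ((Nat.modEq_zero_iff_dvd).2 ⟨k * j, by ring⟩)
        simpa using this
      · rw [← hg.nat (((u * w : ℕ) : ℚ) / (f * k : ℕ)) (u * j)]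
        congr 1
        have hf' : (f : ℚ) ≠ 0 := by exact_mod_cast hf0.ne'
        have hk' : (k : ℚ) ≠ 0 := by exact_mod_cast hk.ne'
        push_cast
        field_simp
    rw [sum_congr rfl h2, sum_const, card_range, nsmul_eq_mul]
  have hχu : χ (u : ZMod f) ≠ 0 := chi_ne_zero χ (Nat.Coprime.coprime_dvd_right ⟨k, rfl⟩ hu)
  have h3 : χ (u : ZMod f) *
      ∑ w ∈ range (f * k), χ (w : ZMod f) * g (((u * w : ℕ) : ℚ) / (f * k : ℕ)) = S χ g := by
    rw [← sum_level χ hg hf0 hk, mul_sum,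
      ← sum_mul_coprime hM (F := fun w : ℕ => χ (w : ZMod f) * g ((w : ℚ) / (f * k : ℕ))) ?_ hu]
    · refine sum_congr rfl fun w _ => ?_
      push_cast
      rw [map_mul, mul_assoc]
    · intro m n hmn
      rw [chi_congr χ ⟨k, rfl⟩ hmn, hg.congr_mod hM hmn]
  rw [h1, ← h3]
  field_simp

/-- if the conductor does not divide the denominator there is a unit killing the sum -/
theorem exists_unit (hχ : χ.IsPrimitive) {M D : ℕ} (hD : 0 < D) (hfD : f ∣ D) (hMD : M ∣ D)
    (hfM : ¬ f ∣ M) : ∃ t : ℕ, t.Coprime D ∧ t ≡ 1 [MOD M] ∧ χ (t : ZMod f) ≠ 1 := by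
  by_contra hcon
  push Not at hcon
  have : NeZero D := ⟨hD.ne'⟩
  apply hfM
  have h1 : (changeLevel hfD χ).conductor = f := by
    rw [conductor_changeLevel]
    exact hχ
  rw [← h1]
  apply conductor_dvd_of_mem_conductorSet
  rw [mem_conductorSet_iff, factorsThrough_iff_ker_unitsMap hMD]
  intro t ht
  rw [MonoidHom.mem_ker] at ht ⊢
  have ht1 : ((t : ZMod D).val : ℕ) ≡ 1 [MOD M] := by
    have h2 := congrArg (fun x : (ZMod M)ˣ => (x : ZMod M)) ht
    simp only [ZMod.unitsMap_def, Units.coe_map, Units.val_one, MonoidHom.coe_coe,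
      ZMod.castHom_apply] at h2
    rw [ZMod.cast_eq_val] at h2
    have h3 : (((t : ZMod D).val : ℕ) : ZMod M) = ((1 : ℕ) : ZMod M) := by
      rw [h2, Nat.cast_one]
    exact (ZMod.natCast_eq_natCast_iff _ _ _).1 h3
  have h4 := hcon _ (ZMod.val_coe_unit_coprime t) ht1
  apply Units.ext
  rw [MulChar.coe_toUnitHom, changeLevel_eq_cast_of_dvd χ hfD t, Units.val_one, ZMod.cast_eq_val]
  exact h4

/-- the character sums of odd distributions are universal multiples of the basic one -/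
theorem T_eq (hχ : χ.IsPrimitive) {D : ℕ} (hD : 0 < D) (hfD : f ∣ D) (a : ℕ) :
    ∃ c : ℂ, ∀ g : ℚ → ℂ, OddDist g → T χ g D a = c * S χ g := by
  set h := Nat.gcd a D with hh
  have hh0 : 0 < h := Nat.gcd_pos_of_pos_right a hD
  obtain ⟨M, hM⟩ : h ∣ D := Nat.gcd_dvd_right a D
  obtain ⟨u, hu⟩ : h ∣ a := Nat.gcd_dvd_left a D
  have hM0 : 0 < M := by
    rcases Nat.eq_zero_or_pos M with h0 | h0
    · subst h0; omega
    · exact h0
  have hcop : u.Coprime M := by
    have h1 : h * Nat.gcd u M = h := by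
      rw [← Nat.gcd_mul_left, ← hu, ← hM]
    exact Nat.eq_of_mul_eq_mul_left hh0 (by rw [h1, mul_one])
  by_cases hfM : f ∣ M
  · refine ⟨(h : ℂ) * (χ (u : ZMod f))⁻¹, fun g hg => ?_⟩
    rw [← T_pos χ hg hM0 hh0 hfM hcop, hM, hu, mul_comm h M, mul_comm h u]
  · obtain ⟨t, htD, htM, htχ⟩ := exists_unit χ hχ hD hfD (Dvd.intro_left h hM.symm) hfM
    refine ⟨0, fun g hg => ?_⟩
    have key : χ (t : ZMod f) * T χ g D a = T χ g D a := by
      unfold T
      conv_rhs => rw [← sum_mul_coprime hD (F := fun w : ℕ => χ (w : ZMod f) *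
        g (((w * a : ℕ) : ℚ) / D)) (by
          intro m n hmn
          rw [chi_congr χ hfD hmn, hg.congr_mod hD (hmn.mul_right a)]) htD]
      rw [mul_sum]
      refine sum_congr rfl fun w _ => ?_
      have h1 : g (((t * w * a : ℕ) : ℚ) / D) = g (((w * a : ℕ) : ℚ) / D) := by
        apply hg.congr_mod hD
        have h2 : t * h ≡ 1 * h [MOD h * M] := by
          rw [mul_comm t h, mul_comm 1 h]
          exact Nat.ModEq.mul_left' h htM
        have h3 : t * w * a = (w * u) * (t * h) := by rw [hu]; ring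
        have h4 : w * a = (w * u) * (1 * h) := by rw [hu]; ring
        rw [h3, h4, hM]
        exact h2.mul_left _
      rw [h1]
      push_cast
      rw [map_mul, mul_assoc]
    rw [zero_mul]
    by_contra hne
    exact htχ (mul_right_cancel₀ hne (by rw [key, one_mul]))

end

end Pool.Agent.H11.GD
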