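import Pool.Agent.H11.GD.Gam

/-!
# Change of level for Gamma products
-/

set_option autoImplicit false

open Finset

noncomputable section

namespace Pool.Agent.H11.GD

section
variable {e k : ℕ} [NeZero e] [NeZero k]

/-- exponents of level `k e` from exponents of level `e` -/
def up (k : ℕ) (ε : ZMod e → ℚ) (a : ZMod (e * k)) : ℚ :=
  if k ∣ a.val then ε ((a.val / k : ℕ) : ZMod e) else 0

theorem sum_up {W : Type*} [AddCommGroup W] [Module ℚ W] (ε : ZMod e → ℚ) (F : ℕ → W) :
    ∑ a : ZMod (e * k), up k ε a • F a.val = ∑ b : ZMod e, ε b • F (k * b.val) := by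
  have hk : 0 < k := NeZero.pos k
  have he : 0 < e := NeZero.pos e
  have h1 : ∑ a : ZMod (e * k), up k ε a • F a.val =
      ∑ a ∈ univ.filter (fun a : ZMod (e * k) => k ∣ a.val),
        ε ((a.val / k : ℕ) : ZMod e) • F a.val := by
    rw [sum_filter]
    refine sum_congr rfl fun a _ => ?_
    unfold up
    split_ifs <;> simp
  rw [h1]
  refine sum_bij (fun a _ => ((a.val / k : ℕ) : ZMod e)) ?_ ?_ ?_ ?_
  · intro a _
    exact mem_univ _
  · intro a ha b hb hab
    obtain ⟨x, hx⟩ := (mem_filter.1 ha).2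
    obtain ⟨y, hy⟩ := (mem_filter.1 hb).2
    have hax := ZMod.val_lt a
    have hby := ZMod.val_lt b
    rw [hx, hy, Nat.mul_div_cancel_left x hk, Nat.mul_div_cancel_left y hk] at hab
    have hxe : x < e := by
      rw [hx, mul_comm] at hax
      exact Nat.lt_of_mul_lt_mul_right hax
    have hye : y < e := by
      rw [hy, mul_comm] at hby
      exact Nat.lt_of_mul_lt_mul_right hby
    have hxy : x = y := by
      have := congrArg ZMod.val hab
      rwa [ZMod.val_cast_of_lt hxe, ZMod.val_cast_of_lt hye] at this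
    apply ZMod.val_injective
    rw [hx, hy, hxy]
  · intro b _
    have hlt : k * b.val < e * k := by
      rw [mul_comm e k]
      exact Nat.mul_lt_mul_of_pos_left (ZMod.val_lt b) hk
    refine ⟨((k * b.val : ℕ) : ZMod (e * k)), ?_, ?_⟩
    · refine mem_filter.2 ⟨mem_univ _, ?_⟩
      rw [ZMod.val_cast_of_lt hlt]
      exact dvd_mul_right k _
    · rw [ZMod.val_cast_of_lt hlt, Nat.mul_div_cancel_left _ hk, ZMod.natCast_zmod_val]
  · intro a ha
    obtain ⟨x, hx⟩ := (mem_filter.1 ha).2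
    have hax := ZMod.val_lt a
    have hxe : x < e := by
      rw [hx, mul_comm] at hax
      exact Nat.lt_of_mul_lt_mul_right hax
    rw [hx, Nat.mul_div_cancel_left x hk, ZMod.val_cast_of_lt hxe]

/-- reduction of units -/
def red (k : ℕ) (l : (ZMod (e * k))ˣ) : (ZMod e)ˣ := ZMod.unitsMap (dvd_mul_right e k) l

theorem val_mul_up (l : (ZMod (e * k))ˣ) (a : ZMod (e * k)) (x : ℕ) (hx : a.val = k * x) :
    ((l : ZMod (e * k)) * a).val = k * (((red k l : (ZMod e)ˣ) : ZMod e) * (x : ZMod e)).val := by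
  have h1 : ((red k l : (ZMod e)ˣ) : ZMod e) = (((l : ZMod (e * k)).val : ℕ) : ZMod e) := by
    unfold red
    simp only [ZMod.unitsMap_def, Units.coe_map, MonoidHom.coe_coe, ZMod.castHom_apply]
    rw [ZMod.cast_eq_val]
  rw [h1, ← Nat.cast_mul, ZMod.val_natCast, ZMod.val_mul, hx]
  have h2 : ∀ m : ℕ, m * (k * x) % (e * k) = k * (m * x % e) := by
    intro m
    rw [mul_comm e k, show m * (k * x) = k * (m * x) by ring, Nat.mul_mod_mul_left]
  exact h2 _

omit [NeZero e] [NeZero k] in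
theorem up_eq_zero_of_not_dvd (ε : ZMod e → ℚ) {a : ZMod (e * k)} (h : ¬ k ∣ a.val) :
    up k ε a = 0 := if_neg h

/-- exponents at the higher level -/
theorem sum_val_up (ε : ZMod e → ℚ) (l : (ZMod (e * k))ˣ) :
    ∑ a : ZMod (e * k), up k ε a * (((l : ZMod (e * k)) * a).val : ℚ) =
      k * ∑ b : ZMod e, ε b * ((((red k l : (ZMod e)ˣ) : ZMod e) * b).val : ℚ) := by
  have hk : 0 < k := NeZero.pos k
  have h1 : ∀ a : ZMod (e * k), up k ε a * (((l : ZMod (e * k)) * a).val : ℚ) =
      up k ε a • (fun n : ℕ => ((k * (((red k l : (ZMod e)ˣ) : ZMod e) *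
        ((n / k : ℕ) : ZMod e)).val : ℕ) : ℚ)) a.val := by
    intro a
    by_cases h : k ∣ a.val
    · obtain ⟨x, hx⟩ := h
      rw [val_mul_up l a x hx, smul_eq_mul]
      simp only
      rw [hx, Nat.mul_div_cancel_left x hk]
    · rw [up_eq_zero_of_not_dvd ε h, zero_mul, zero_smul]
  simp_rw [h1]
  rw [sum_up ε (fun n : ℕ => ((k * (((red k l : (ZMod e)ˣ) : ZMod e) *
        ((n / k : ℕ) : ZMod e)).val : ℕ) : ℚ)), mul_sum]
  refine sum_congr rfl fun b _ => ?_
  simp only [smul_eq_mul]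
  rw [Nat.mul_div_cancel_left _ hk, ZMod.natCast_zmod_val]
  push_cast
  ring

/-- Gamma products at the higher level -/
theorem gam_up (ε : ZMod e → ℚ) (l : (ZMod (e * k))ˣ) : gam (up k ε) l = gam ε (red k l) := by
  have hk : 0 < k := NeZero.pos k
  have hk' : (k : ℂ) ≠ 0 := by exact_mod_cast hk.ne'
  have he' : (e : ℂ) ≠ 0 := by exact_mod_cast NeZero.ne e
  rw [gam_eq, gam_eq]
  have h1 : ∀ a : ZMod (e * k), up k ε a • gval ((l : ZMod (e * k)) * a) =
      up k ε a • (fun n : ℕ => gval (((red k l : (ZMod e)ˣ) : ZMod e) * ((n / k : ℕ) : ZMod e)))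
        a.val := by
    intro a
    by_cases h : k ∣ a.val
    · obtain ⟨x, hx⟩ := h
      congr 1
      simp only
      rw [hx, Nat.mul_div_cancel_left x hk]
      unfold gval
      rw [val_mul_up l a x hx]
      congr 3
      push_cast
      field_simp
    · rw [up_eq_zero_of_not_dvd ε h, zero_smul, zero_smul]
  simp_rw [h1]
  rw [sum_up ε (fun n : ℕ => gval (((red k l : (ZMod e)ˣ) : ZMod e) * ((n / k : ℕ) : ZMod e)))]
  refine sum_congr rfl fun b _ => ?_
  rw [Nat.mul_div_cancel_left _ hk, ZMod.natCast_zmod_val]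

end

end Pool.Agent.H11.GD
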