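import Pool.Agent.H11.GD.Cls

/-!
# The multiplication formula for the Gamma function modulo algebraic numbers
-/

set_option autoImplicit false

open Finset

noncomputable section

namespace Pool.Agent.H11.GD

/-- the constant in the multiplication formula -/
def mulC (N : ℕ) : ℝ := ∏ k ∈ range N, Real.Gamma ((1 + k) / N)

theorem mulC_pos {N : ℕ} (hN : 0 < N) : 0 < mulC N := by
  refine prod_pos fun k _ => Real.Gamma_pos_of_pos ?_
  have : (0 : ℝ) < N := by exact_mod_cast hN
  positivity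

/-- the comparison function of the multiplication formula -/
def mulF (N : ℕ) (x : ℝ) : ℝ := (N : ℝ) ^ (x - 1) * (∏ k ∈ range N, Real.Gamma ((x + k) / N)) / mulC N

theorem mulF_pos {N : ℕ} (hN : 0 < N) {x : ℝ} (hx : 0 < x) : 0 < mulF N x := by
  have hN' : (0 : ℝ) < N := by exact_mod_cast hN
  refine div_pos (mul_pos (by positivity) (prod_pos fun k _ => Real.Gamma_pos_of_pos ?_))
    (mulC_pos hN)
  positivity

theorem mulF_one {N : ℕ} (hN : 0 < N) : mulF N 1 = 1 := by
  unfold mulF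
  rw [sub_self, Real.rpow_zero, one_mul]
  exact div_self (mulC_pos hN).ne'

theorem mulF_add_one {N : ℕ} (hN : 0 < N) {x : ℝ} (hx : 0 < x) :
    mulF N (x + 1) = x * mulF N x := by
  have hN' : (0 : ℝ) < N := by exact_mod_cast hN
  unfold mulF
  set a : ℕ → ℝ := fun k => Real.Gamma ((x + k) / N) with ha
  have ha0 : 0 < a 0 := Real.Gamma_pos_of_pos (by simp only [Nat.cast_zero, add_zero]; positivity)
  have haN : a N = x / N * a 0 := by
    simp only [ha, Nat.cast_zero, add_zero]
    rw [← Real.Gamma_add_one (by positivity)]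
    congr 1
    field_simp
  have h1 : ∏ k ∈ range N, Real.Gamma ((x + 1 + k) / N) = ∏ k ∈ range N, a (k + 1) := by
    refine prod_congr rfl fun k _ => ?_
    simp only [ha]
    congr 2
    push_cast
    ring
  have h2 : (∏ k ∈ range N, a (k + 1)) * a 0 = (∏ k ∈ range N, a k) * a N := by
    rw [← prod_range_succ', ← prod_range_succ]
  have h3 : ∏ k ∈ range N, a (k + 1) = x / N * ∏ k ∈ range N, a k := by
    have h4 : (∏ k ∈ range N, a (k + 1)) * a 0 = (x / N * ∏ k ∈ range N, a k) * a 0 := by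
      rw [h2, haN]
      ring
    exact mul_right_cancel₀ ha0.ne' h4
  rw [h1, h3]
  have h5 : (N : ℝ) ^ (x + 1 - 1) = (N : ℝ) ^ (x - 1) * N := by
    rw [← Real.rpow_add_one hN'.ne']
    congr 1
    ring
  rw [h5]
  field_simp

theorem convexOn_one (N : ℕ) (hN : 0 < N) (k : ℕ) :
    ConvexOn ℝ (Set.Ioi 0) (fun x : ℝ => Real.log (Real.Gamma ((x + k) / N))) := by
  have hN' : (0 : ℝ) < N := by exact_mod_cast hN
  have h := Real.convexOn_log_Gamma
  refine ⟨convex_Ioi 0, fun x hx y hy a b ha hb hab => ?_⟩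
  have hx' : (x + k) / N ∈ Set.Ioi (0 : ℝ) := by
    have : (0 : ℝ) < x := hx
    change (0 : ℝ) < (x + k) / N
    positivity
  have hy' : (y + k) / N ∈ Set.Ioi (0 : ℝ) := by
    have : (0 : ℝ) < y := hy
    change (0 : ℝ) < (y + k) / N
    positivity
  have h2 := h.2 hx' hy' ha hb hab
  simp only [smul_eq_mul, Function.comp] at h2 ⊢
  have h3 : (a * x + b * y + k) / N = a * ((x + k) / N) + b * ((y + k) / N) := by
    have : a * x + b * y + k = a * (x + k) + b * (y + k) := by
      linear_combination (-(k : ℝ)) * hab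
    rw [this]
    ring
  rw [h3]
  exact h2

theorem convexOn_range (N : ℕ) (hN : 0 < N) (n : ℕ) :
    ConvexOn ℝ (Set.Ioi 0) (fun x : ℝ => ∑ k ∈ range n, Real.log (Real.Gamma ((x + k) / N))) := by
  induction n with
  | zero =>
    simp only [range_zero, sum_empty]
    exact convexOn_const 0 (convex_Ioi 0)
  | succ n ih =>
    simp only [sum_range_succ]
    exact ih.add (convexOn_one N hN n)

theorem mulF_convex {N : ℕ} (hN : 0 < N) : ConvexOn ℝ (Set.Ioi 0) (Real.log ∘ mulF N) := by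
  have hN' : (0 : ℝ) < N := by exact_mod_cast hN
  have h1 : ConvexOn ℝ (Set.Ioi (0 : ℝ)) (fun x : ℝ => (x - 1) * Real.log N - Real.log (mulC N)) := by
    refine ⟨convex_Ioi 0, fun x _ y _ a b _ _ hab => ?_⟩
    simp only [smul_eq_mul]
    apply le_of_eq
    linear_combination (Real.log N + Real.log (mulC N)) * hab
  refine ((convexOn_range N hN N).add h1).congr fun x hx => ?_
  have hx' : (0 : ℝ) < x := hx
  have hpos : ∀ k ∈ range N, Real.Gamma ((x + k) / N) ≠ 0 := fun k _ =>
    (Real.Gamma_pos_of_pos (by positivity)).ne'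
  simp only [Function.comp, mulF, Pi.add_apply]
  rw [Real.log_div (mul_ne_zero (by positivity) (prod_ne_zero_iff.2 hpos)) (mulC_pos hN).ne',
    Real.log_mul (by positivity) (prod_ne_zero_iff.2 hpos), Real.log_rpow hN',
    Real.log_prod hpos]
  ring

theorem mulF_eq {N : ℕ} (hN : 0 < N) {x : ℝ} (hx : 0 < x) : mulF N x = Real.Gamma x :=
  Real.eq_Gamma_of_log_convex (mulF_convex hN) (fun hy => mulF_add_one hN hy)
    (fun hy => mulF_pos hN hy) (mulF_one hN) hx

/-- multiplication formula with unspecified constant -/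
theorem gamma_mult {N : ℕ} (hN : 0 < N) {x : ℝ} (hx : 0 < x) :
    (N : ℝ) ^ (x - 1) * ∏ k ∈ range N, Real.Gamma ((x + k) / N) = mulC N * Real.Gamma x := by
  rw [← mulF_eq hN hx]
  unfold mulF
  field_simp [(mulC_pos hN).ne']

/-- the class of the value of the Gamma function at a real number -/
def clG (x : ℝ) : V := cls (Real.Gamma x : ℂ)

theorem clG_one : clG 1 = 0 := by simp [clG]

/-- the sine of a rational multiple of `π` is algebraic -/
theorem isAlgebraic_sin (q : ℚ) : IsAlgebraic ℚ (Complex.sin (Real.pi * q)) := by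
  have h1 : IsAlgebraic ℚ (Complex.exp (Real.pi * q * Complex.I)) := by
    have h : Complex.exp (Real.pi * q * Complex.I) ^ (2 * q.den) = 1 := by
      rw [← Complex.exp_nat_mul]
      have h2 : ((2 * q.den : ℕ) : ℂ) * (Real.pi * q * Complex.I) =
          (q.num : ℂ) * (2 * Real.pi * Complex.I) := by
        have h3 : (q : ℂ) = (q.num : ℂ) / (q.den : ℂ) := by
          exact_mod_cast (Rat.num_div_den q).symm
        have h4 : (q.den : ℂ) ≠ 0 := by exact_mod_cast q.den_nz
        rw [h3]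
        push_cast
        field_simp
      rw [h2, Complex.exp_int_mul_two_pi_mul_I]
    have h5 : IsAlgebraic ℚ (Complex.exp (Real.pi * q * Complex.I) ^ (2 * q.den)) := by
      rw [h]
      exact isAlgebraic_one
    exact IsAlgebraic.of_pow (by have := q.pos; omega) h5
  have h2 : Complex.sin (Real.pi * q) =
      ((Complex.exp (Real.pi * q * Complex.I))⁻¹ - Complex.exp (Real.pi * q * Complex.I)) *
        Complex.I * (2 : ℂ)⁻¹ := by
    rw [← Complex.exp_neg, Complex.sin]
    congr 2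
    ring_nf
  rw [h2]
  exact ((h1.inv.sub h1).mul isAlgebraic_I).mul (isAlgebraic_natCast (R := ℚ) (A := ℂ) 2).inv

/-- reflection formula modulo algebraic numbers -/
theorem clG_reflect {q : ℚ} (h0 : 0 < q) (h1 : q < 1) :
    clG (q : ℝ) + clG (1 - (q : ℝ)) = cls (Real.pi : ℂ) := by
  have hq0 : (0 : ℝ) < q := by exact_mod_cast h0
  have hq1 : (q : ℝ) < 1 := by exact_mod_cast h1
  have hpi : (Real.pi : ℂ) ≠ 0 := by exact_mod_cast Real.pi_ne_zero
  have hsin : 0 < Real.sin (Real.pi * q) := by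
    apply Real.sin_pos_of_pos_of_lt_pi (by positivity)
    nlinarith [Real.pi_pos]
  have hsinC : Complex.sin (Real.pi * q) ≠ 0 := by
    have : Complex.sin (Real.pi * q) = ((Real.sin (Real.pi * q) : ℝ) : ℂ) := by push_cast; rfl
    rw [this]
    exact_mod_cast hsin.ne'
  unfold clG
  rw [← cls_mul (by exact_mod_cast (Real.Gamma_pos_of_pos hq0).ne')
    (by exact_mod_cast (Real.Gamma_pos_of_pos (by linarith : (0 : ℝ) < 1 - q)).ne')]
  have h := Real.Gamma_mul_Gamma_one_sub (q : ℝ)
  have h2 : (Real.Gamma (q : ℝ) : ℂ) * (Real.Gamma (1 - (q : ℝ)) : ℂ) =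
      (Real.pi : ℂ) / Complex.sin (Real.pi * q) := by
    rw [← Complex.ofReal_mul, h]
    push_cast
    rfl
  rw [h2, cls_div hpi hsinC, (cls_eq_zero_iff hsinC).2 (isAlgebraic_sin q), sub_zero]

/-- the class of the constant of the multiplication formula -/
theorem cls_mulC {N : ℕ} (hN : 0 < N) :
    cls (mulC N : ℂ) = (((N : ℚ) - 1) / 2) • cls (Real.pi : ℂ) := by
  obtain ⟨n, rfl⟩ : ∃ n, N = n + 1 := ⟨N - 1, by omega⟩
  have hN' : (0 : ℝ) < ((n + 1 : ℕ) : ℝ) := by exact_mod_cast hN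
  have h1 : cls (mulC (n + 1) : ℂ) = ∑ k ∈ range (n + 1), clG ((1 + k) / (n + 1 : ℕ)) := by
    unfold mulC clG
    rw [Complex.ofReal_prod, cls_prod]
    intro k _
    exact_mod_cast (Real.Gamma_pos_of_pos (by positivity)).ne'
  have h2 : clG ((1 + (n : ℝ)) / (n + 1 : ℕ)) = 0 := by
    have : (1 + (n : ℝ)) / (n + 1 : ℕ) = 1 := by
      push_cast
      rw [add_comm]
      exact div_self (by positivity)
    rw [this, clG_one]
  rw [h1, sum_range_succ, h2, add_zero]
  have h3 : ∑ k ∈ range n, clG ((1 + k) / (n + 1 : ℕ)) =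
      ∑ k ∈ range n, clG (1 - (1 + k) / (n + 1 : ℕ)) := by
    rw [← sum_range_reflect]
    refine sum_congr rfl fun k hk => ?_
    congr 1
    have hk' : k < n := mem_range.1 hk
    have : ((n - 1 - k : ℕ) : ℝ) = n - 1 - k := by
      rw [Nat.cast_sub (by omega), Nat.cast_sub (by omega)]
      simp
    rw [this]
    push_cast
    field_simp
    ring
  have h4 : (2 : ℚ) • ∑ k ∈ range n, clG ((1 + k) / (n + 1 : ℕ)) =
      (n : ℚ) • cls (Real.pi : ℂ) := by
    have h5 : (2 : ℚ) • ∑ k ∈ range n, clG ((1 + k) / (n + 1 : ℕ)) =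
        ∑ k ∈ range n, clG ((1 + k) / (n + 1 : ℕ)) +
          ∑ k ∈ range n, clG (1 - (1 + k) / (n + 1 : ℕ)) := by
      rw [← h3]
      exact two_smul ℚ _
    rw [h5, ← sum_add_distrib]
    have h6 : ∀ k ∈ range n, clG ((1 + k) / (n + 1 : ℕ)) + clG (1 - (1 + k) / (n + 1 : ℕ)) =
        cls (Real.pi : ℂ) := by
      intro k hk
      have hk' : k < n := mem_range.1 hk
      have hq := clG_reflect (q := (1 + (k : ℚ)) / (n + 1)) (by positivity) (by
        rw [div_lt_one (by positivity)]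
        have : (k : ℚ) < n := by exact_mod_cast hk'
        linarith)
      push_cast at hq ⊢
      exact hq
    rw [sum_congr rfl h6, sum_const, card_range, ← Nat.cast_smul_eq_nsmul ℚ]
  have h7 : ∑ k ∈ range n, clG ((1 + k) / (n + 1 : ℕ)) =
      (2 : ℚ)⁻¹ • ((2 : ℚ) • ∑ k ∈ range n, clG ((1 + k) / (n + 1 : ℕ))) := by
    rw [smul_smul, inv_mul_cancel₀ two_ne_zero, one_smul]
  rw [h7, h4, smul_smul]
  congr 1
  push_cast
  ring

/-- multiplication formula modulo algebraic numbers -/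
theorem clG_mult {N : ℕ} (hN : 0 < N) {q : ℚ} (hq : 0 < q) :
    ∑ k ∈ range N, clG (((q : ℝ) + k) / N) =
      (((N : ℚ) - 1) / 2) • cls (Real.pi : ℂ) + clG (q : ℝ) := by
  have hN' : (0 : ℝ) < N := by exact_mod_cast hN
  have hq' : (0 : ℝ) < q := by exact_mod_cast hq
  have hpos : ∀ k ∈ range N, (Real.Gamma (((q : ℝ) + k) / N) : ℂ) ≠ 0 := fun k _ => by
    exact_mod_cast (Real.Gamma_pos_of_pos (by positivity)).ne'
  have h := gamma_mult hN hq'
  have h1 : cls (((N : ℝ) ^ ((q : ℝ) - 1) * ∏ k ∈ range N, Real.Gamma (((q : ℝ) + k) / N) : ℝ) : ℂ)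
      = ∑ k ∈ range N, clG (((q : ℝ) + k) / N) := by
    rw [Complex.ofReal_mul, cls_mul (by exact_mod_cast (by positivity : (0 : ℝ) < (N : ℝ) ^ ((q : ℝ) - 1)).ne')
      (by rw [Complex.ofReal_prod]; exact prod_ne_zero_iff.2 hpos), Complex.ofReal_prod,
      cls_prod _ _ hpos]
    have h2 : cls (((N : ℝ) ^ ((q : ℝ) - 1) : ℝ) : ℂ) = 0 := by
      have h3 := cls_rpow hN' (q - 1)
      push_cast at h3
      rw [cls_natCast hN.ne', smul_zero] at h3
      exact h3
    rw [h2, zero_add]
    rfl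
  rw [← h1, h, Complex.ofReal_mul, cls_mul (by exact_mod_cast (mulC_pos hN).ne')
    (by exact_mod_cast (Real.Gamma_pos_of_pos hq').ne'), cls_mulC hN]
  rfl

end Pool.Agent.H11.GD
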