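import Pool.Agent.H11.GD.Gam
import Pool.Agent.H5.GD.Gam

/-!
# The gamma facts used in the reduction of the Gross-Deligne conjecture
-/

set_option autoImplicit false

open Finset

noncomputable section

namespace Pool.Agent.H11.GD

theorem gammaSpec : _root_.GD.GammaSpec V cls where
  mul _ _ hx hy := cls_mul hx hy
  zero_iff _ hx := cls_eq_zero_iff hx
  rpow _ q hx := cls_rpow hx q
  ko d _ ε h l := by
    have h1 := gam_zero ε h l
    unfold gam at h1
    rw [← h1]
    refine sum_congr rfl fun a _ => ?_
    congr 1
    unfold gval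
    rw [← Complex.Gamma_ofReal]
    push_cast
    rfl
  ex d _ hd m p hp := by
    obtain ⟨ε, hε⟩ := exists_eps (by omega) p m hp
    exact ⟨ε, fun l => (hε l).symm⟩

end Pool.Agent.H11.GD
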